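import Mathlib

/-!
# Descent of cocycles along an extension of `l`-power degree: group theory
-/

set_option autoImplicit false

namespace Pool.Agent.R901.LD

/-- fixed points of an `l`-group on a group killed by `l` -/
theorem fp {A : Type} [AddCommGroup A] {l : ℕ} (hl : l.Prime) {G : Type} [Group G] (H : Subgroup G)
    [H.Normal] [Finite (G ⧸ H)] (hP : IsPGroup l (G ⧸ H)) (φ : G → A →+ A)
    (h1 : ∀ a, φ 1 a = a) (hmul : ∀ g g' a, φ (g * g') a = φ g (φ g' a))
    (hH : ∀ h ∈ H, ∀ a, φ h a = a) (a : A) (ha : a ≠ 0) (hla : l • a = 0) :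
    ∃ b : A, b ≠ 0 ∧ ∀ g, φ g b = b := by
  classical
  have : Fact l.Prime := ⟨hl⟩
  -- the orbit
  have hfac : ∀ g g' : G, (QuotientGroup.mk g : G ⧸ H) = QuotientGroup.mk g' → ∀ x, φ g x = φ g' x := by
    intro g g' h x
    have h2 : g⁻¹ * g' ∈ H := QuotientGroup.eq.1 h
    have h3 : g' = g * (g⁻¹ * g') := by group
    rw [h3, hmul, hH _ h2]
  have hfin : (Set.range fun g => φ g a).Finite := by
    refine (Set.finite_range fun q : G ⧸ H => φ q.out a).subset ?_
    rintro _ ⟨g, rfl⟩
    exact ⟨QuotientGroup.mk g, hfac _ _ (Quotient.out_eq _) a⟩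
  set S : AddSubgroup A := AddSubgroup.closure (Set.range fun g => φ g a) with hS
  have hkill : ∀ x ∈ S, l • x = 0 := by
    intro x hx
    induction hx using AddSubgroup.closure_induction with
    | mem x hx =>
      obtain ⟨g, rfl⟩ := hx
      show l • φ g a = 0
      rw [← map_nsmul, hla, map_zero]
    | zero => exact nsmul_zero _
    | add x y _ _ h1 h2 => rw [nsmul_add, h1, h2, add_zero]
    | neg x _ h => rw [smul_neg, h, neg_zero]
  have hSfin : Finite S := by
    have : AddGroup.FG S := by
      rw [AddGroup.fg_iff_addSubgroup_fg]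
      exact ⟨hfin.toFinset, by rw [Set.Finite.coe_toFinset]⟩
    refine AddCommGroup.finite_of_fg_torsion S fun x => ?_
    rw [isOfFinAddOrder_iff_nsmul_eq_zero]
    exact ⟨l, hl.pos, Subtype.ext (hkill x.1 x.2)⟩
  have hstab : ∀ g, ∀ x ∈ S, φ g x ∈ S := by
    intro g x hx
    induction hx using AddSubgroup.closure_induction with
    | mem x hx =>
      obtain ⟨g', rfl⟩ := hx
      refine AddSubgroup.subset_closure ⟨g * g', ?_⟩
      exact hmul g g' a
    | zero => rw [map_zero]; exact S.zero_mem
    | add x y _ _ h1 h2 => rw [map_add]; exact S.add_mem h1 h2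
    | neg x _ h => rw [map_neg]; exact S.neg_mem h
  let _ : MulAction (G ⧸ H) S :=
    { smul := fun q x => ⟨φ q.out x.1, hstab _ _ x.2⟩
      one_smul := fun x => Subtype.ext (by
        show φ (Quotient.out (1 : G ⧸ H)) x.1 = x.1
        rw [hfac (Quotient.out (1 : G ⧸ H)) 1 (Quotient.out_eq _)]
        exact h1 _)
      mul_smul := fun q q' x => Subtype.ext (by
        show φ (Quotient.out (q * q')) x.1 = φ q.out (φ q'.out x.1)
        rw [← hmul]
        refine hfac _ _ ?_ _
        rw [QuotientGroup.mk_mul]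
        rw [show ((Quotient.out (q * q') : G) : G ⧸ H) = q * q' from Quotient.out_eq _,
          show ((Quotient.out q : G) : G ⧸ H) = q from Quotient.out_eq _,
          show ((Quotient.out q' : G) : G ⧸ H) = q' from Quotient.out_eq _]) }
  have haS : a ∈ S := AddSubgroup.subset_closure ⟨1, h1 a⟩
  have hdvd : l ∣ Nat.card S := by
    have h2 : addOrderOf (⟨a, haS⟩ : S) = l := by
      apply addOrderOf_eq_prime
      · exact Subtype.ext hla
      · intro h
        exact ha (congrArg Subtype.val h)
    rw [← h2]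
    exact addOrderOf_dvd_natCard _
  have h0 : (0 : S) ∈ MulAction.fixedPoints (G ⧸ H) S := by
    intro q
    apply Subtype.ext
    show φ q.out 0 = 0
    exact map_zero _
  obtain ⟨b, hb, hb0⟩ := hP.exists_fixed_point_of_prime_dvd_card_of_fixed_point S hdvd h0
  refine ⟨b.1, fun h => hb0 (Subtype.ext h.symm), fun g => ?_⟩
  have h2 := congrArg Subtype.val (hb (QuotientGroup.mk g))
  have h3 : φ (Quotient.out (QuotientGroup.mk g : G ⧸ H)) b.1 = b.1 := h2
  exact (hfac g _ (Quotient.out_eq (QuotientGroup.mk g : G ⧸ H)).symm b.1).trans h3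

end Pool.Agent.R901.LD
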