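import Pool.Agent.R901.LD.Abs

/-!
# Descent of cocycles along an extension of `l`-power degree: the main step
-/

set_option autoImplicit false

namespace Pool.Agent.R901.LD

section
variable {G M : Type} [Group G] [AddCommGroup M] [DistribMulAction G M]

/-- the action on cochains -/
def cj (g : G) : (G → M) →+ (G → M) where
  toFun c := fun x => g • c (g⁻¹ * x * g)
  map_zero' := by
    funext x
    exact smul_zero g
  map_add' c c' := by
    funext x
    exact smul_add g _ _

theorem cj_apply (g : G) (c : G → M) (x : G) : cj g c x = g • c (g⁻¹ * x * g) := rfl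

/-- cocycle on the subgroup `H` -/
def CocOn (H : Subgroup G) (c : G → M) : Prop := ∀ g ∈ H, ∀ h ∈ H, c (g * h) = c g + g • c h

/-- coboundary of an `l`-torsion element, on the subgroup `H` -/
def Cob (l : ℕ) (H : Subgroup G) (c : G → M) : Prop :=
  ∃ T : M, l • T = 0 ∧ ∀ h ∈ H, c h = h • T - T

theorem Cob.cj {l : ℕ} {H : Subgroup G} [H.Normal] {c : G → M} (h : Cob l H c) (g : G) :
    Cob l H (cj g c) := by
  obtain ⟨T, hT, hc⟩ := h
  refine ⟨g • T, by rw [← smul_comm, hT, smul_zero], fun x hx => ?_⟩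
  have hx' : g⁻¹ * x * g ∈ H := by
    have := Subgroup.Normal.conj_mem (inferInstance : H.Normal) x hx g⁻¹
    rwa [inv_inv] at this
  rw [cj_apply, hc _ hx', smul_sub, smul_smul, smul_smul]
  congr 2
  group

theorem coc_one {H : Subgroup G} {c : G → M} (hc : CocOn H c) : c 1 = 0 := by
  have h := hc 1 H.one_mem 1 H.one_mem
  rw [mul_one, one_smul] at h
  exact left_eq_add.1 h

/-- for `h ∈ H` the conjugation by `h` changes a cocycle by a coboundary -/
theorem cj_mem {l : ℕ} {H : Subgroup G} [H.Normal] {c : G → M} (hc : CocOn H c)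
    (hl : ∀ h ∈ H, l • c h = 0) {h : G} (hh : h ∈ H) : Cob l H (cj h c - c) := by
  refine ⟨c h, hl h hh, fun x hx => ?_⟩
  have hx' : h⁻¹ * x * h ∈ H := H.mul_mem (H.mul_mem (H.inv_mem hh) hx) hh
  have h1 := hc h hh _ hx'
  have h2 := hc x hx h hh
  have e : h * (h⁻¹ * x * h) = x * h := by group
  rw [e, h2] at h1
  show h • c (h⁻¹ * x * h) - c x = x • c h - c h
  rw [eq_sub_iff_add_eq, sub_add_eq_add_sub, sub_eq_iff_eq_add]
  rw [add_comm (h • _)]
  rw [← h1]
  abel

/-- extension of a cocycle whose class is invariant -/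
theorem extend {l : ℕ} {H : Subgroup G} [H.Normal] {c : G → M} (hc : CocOn H c)
    (hl : ∀ h ∈ H, l • c h = 0)
    (hM : ∀ T : M, l • T = 0 → (∀ h ∈ H, h • T = T) → T = 0)
    (hinv : ∀ g, Cob l H (cj g c - c)) :
    ∃ η : G → M, (∀ g, l • η g = 0) ∧ (∀ g g', η (g * g') = η g + g • η g') ∧
      ∀ h ∈ H, η h = c h := by
  choose η hη1 hη2 using hinv
  have huniq : ∀ T T' : M, l • T = 0 → l • T' = 0 → (∀ h ∈ H, h • T - T = h • T' - T') → T = T' := by
    intro T T' hT hT' h
    rw [← sub_eq_zero]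
    apply hM
    · rw [smul_sub, hT, hT', sub_zero]
    · intro x hx
      rw [smul_sub]
      have := h x hx
      rw [sub_eq_sub_iff_add_eq_add] at this ⊢
      rw [this]
      abel
  refine ⟨η, hη1, fun g g' => ?_, fun h hh => ?_⟩
  · apply huniq
    · exact hη1 _
    · rw [smul_add, hη1, ← smul_comm, hη1, smul_zero, add_zero]
    · intro x hx
      have hx' : g⁻¹ * x * g ∈ H := by
        have := Subgroup.Normal.conj_mem (inferInstance : H.Normal) x hx g⁻¹
        rwa [inv_inv] at this
      rw [← hη2 (g * g') x hx]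
      have h1 := hη2 g x hx
      have h2 := hη2 g' _ hx'
      have h3 : g • ((cj g' c - c) (g⁻¹ * x * g)) = x • (g • η g') - g • η g' := by
        rw [h2, smul_sub, smul_smul, smul_smul]
        congr 2
        group
      have h4 : (cj (g * g') c - c) x = g • ((cj g' c - c) (g⁻¹ * x * g)) + (cj g c - c) x := by
        show (g * g') • c ((g * g')⁻¹ * x * (g * g')) - c x =
          g • (g' • c (g'⁻¹ * (g⁻¹ * x * g) * g') - c (g⁻¹ * x * g)) +
            (g • c (g⁻¹ * x * g) - c x)
        rw [smul_sub, smul_smul]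
        have e : (g * g')⁻¹ * x * (g * g') = g'⁻¹ * (g⁻¹ * x * g) * g' := by group
        rw [e]
        abel
      rw [h4, h3, h1, smul_add]
      abel
  · apply huniq _ _ (hη1 _) (hl h hh)
    intro x hx
    rw [← hη2 h x hx]
    have hx' : h⁻¹ * x * h ∈ H := H.mul_mem (H.mul_mem (H.inv_mem hh) hx) hh
    have h1 := hc h hh _ hx'
    have h2 := hc x hx h hh
    have e : h * (h⁻¹ * x * h) = x * h := by group
    rw [e, h2] at h1
    show h • c (h⁻¹ * x * h) - c x = x • c h - c h
    rw [eq_sub_iff_add_eq, sub_add_eq_add_sub, sub_eq_iff_eq_add]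
    rw [add_comm (h • _)]
    rw [← h1]
    abel

/-- no torsion fixed by `H` -/
theorem fixed_zero {l : ℕ} (hl : l.Prime) (H : Subgroup G) [H.Normal] [Finite (G ⧸ H)]
    (hP : IsPGroup l (G ⧸ H)) (hM : ∀ T : M, l • T = 0 → (∀ g : G, g • T = T) → T = 0)
    (T : M) (hT : l • T = 0) (hH : ∀ h ∈ H, h • T = T) : T = 0 := by
  by_contra hne
  let A : AddSubgroup M :=
    { carrier := {x | l • x = 0 ∧ ∀ h ∈ H, h • x = x}
      zero_mem' := ⟨smul_zero _, fun h _ => smul_zero h⟩
      add_mem' := by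
        rintro x y ⟨h1, h2⟩ ⟨h3, h4⟩
        exact ⟨by rw [smul_add, h1, h3, add_zero], fun h hh => by rw [smul_add, h2 h hh, h4 h hh]⟩
      neg_mem' := by
        rintro x ⟨h1, h2⟩
        exact ⟨by rw [smul_neg, h1, neg_zero], fun h hh => by rw [smul_neg, h2 h hh]⟩ }
  have hst : ∀ (g : G) (x : A), g • x.1 ∈ A := by
    rintro g ⟨x, h1, h2⟩
    refine ⟨by rw [← smul_comm, h1, smul_zero], fun h hh => ?_⟩
    have hx' : g⁻¹ * h * g ∈ H := by
      have := Subgroup.Normal.conj_mem (inferInstance : H.Normal) h hh g⁻¹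
      rwa [inv_inv] at this
    have e : h * g = g * (g⁻¹ * h * g) := by group
    rw [smul_smul, e, mul_smul, h2 _ hx']
  let φ : G → A →+ A := fun g =>
    { toFun := fun x => ⟨g • x.1, hst g x⟩
      map_zero' := Subtype.ext (smul_zero g)
      map_add' := fun x y => Subtype.ext (smul_add g x.1 y.1) }
  obtain ⟨b, hb, hb2⟩ := fp hl H hP φ (fun a => Subtype.ext (one_smul G a.1))
    (fun g g' a => Subtype.ext (mul_smul g g' a.1)) (fun h hh a => Subtype.ext (a.2.2 h hh))
    ⟨T, hT, hH⟩ (fun h => hne (congrArg Subtype.val h)) (Subtype.ext hT)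
  apply hb
  apply Subtype.ext
  exact hM b.1 b.2.1 fun g => congrArg Subtype.val (hb2 g)

/-- **The descent.** -/
theorem descent {l : ℕ} (hl : l.Prime) (H : Subgroup G) [H.Normal] [Finite (G ⧸ H)]
    (hP : IsPGroup l (G ⧸ H)) (hM : ∀ T : M, l • T = 0 → (∀ g : G, g • T = T) → T = 0)
    (Z : AddSubgroup (G → M)) (hZ1 : ∀ c ∈ Z, ∀ h ∈ H, l • c h = 0) (hZ2 : ∀ c ∈ Z, CocOn H c)
    (hext : ∀ c c' : G → M, (∀ h ∈ H, c h = c' h) → c ∈ Z → c' ∈ Z)
    (hcj : ∀ g, ∀ c ∈ Z, cj g c ∈ Z)
    (hbase : ∀ η : G → M, η ∈ Z → (∀ g, l • η g = 0) → (∀ g g', η (g * g') = η g + g • η g') →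
      ∃ T : M, l • T = 0 ∧ ∀ g, η g = g • T - T) :
    ∀ c ∈ Z, Cob l H c := by
  classical
  intro c hc
  by_contra hne
  let B : AddSubgroup Z :=
    { carrier := {x | Cob l H x.1}
      zero_mem' := ⟨0, smul_zero _, fun h _ => by
        show (0 : M) = h • (0 : M) - 0
        rw [smul_zero, sub_zero]⟩
      add_mem' := by
        rintro x y ⟨T, h1, h2⟩ ⟨T', h3, h4⟩
        refine ⟨T + T', by rw [smul_add, h1, h3, add_zero], fun h hh => ?_⟩
        show x.1 h + y.1 h = _
        rw [h2 h hh, h4 h hh, smul_add]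
        abel
      neg_mem' := by
        rintro x ⟨T, h1, h2⟩
        refine ⟨-T, by rw [smul_neg, h1, neg_zero], fun h hh => ?_⟩
        show -x.1 h = _
        rw [h2 h hh, smul_neg]
        abel }
  let ψ : G → Z →+ Z := fun g =>
    { toFun := fun x => ⟨cj g x.1, hcj g x.1 x.2⟩
      map_zero' := Subtype.ext (map_zero (cj g))
      map_add' := fun x y => Subtype.ext (map_add (cj g) x.1 y.1) }
  have hψB : ∀ g, B ≤ B.comap (ψ g) := by
    intro g x hx
    have hx' : Cob l H x.1 := hx
    exact hx'.cj g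
  let φ : G → (Z ⧸ B) →+ (Z ⧸ B) := fun g => QuotientAddGroup.map B B (ψ g) (hψB g)
  have hφ : ∀ g (x : Z), φ g (QuotientAddGroup.mk x) = QuotientAddGroup.mk (ψ g x) := fun _ _ => rfl
  obtain ⟨b, hb, hb2⟩ := fp hl H hP φ (by
      intro a
      induction a using QuotientAddGroup.induction_on with
      | H x =>
        rw [hφ]
        congr 1
        apply Subtype.ext
        funext y
        show (1 : G) • x.1 ((1 : G)⁻¹ * y * 1) = x.1 y
        rw [one_smul, inv_one, one_mul, mul_one])
    (by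
      intro g g' a
      induction a using QuotientAddGroup.induction_on with
      | H x =>
        rw [hφ, hφ, hφ]
        congr 1
        apply Subtype.ext
        funext y
        show (g * g') • x.1 ((g * g')⁻¹ * y * (g * g')) = g • (g' • x.1 (g'⁻¹ * (g⁻¹ * y * g) * g'))
        rw [mul_smul]
        congr 3
        group)
    (by
      intro h hh a
      induction a using QuotientAddGroup.induction_on with
      | H x =>
        rw [hφ, eq_comm, QuotientAddGroup.eq]
        show Cob l H (-x.1 + cj h x.1)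
        rw [neg_add_eq_sub]
        exact cj_mem (hZ2 _ x.2) (hZ1 _ x.2) hh)
    (QuotientAddGroup.mk ⟨c, hc⟩) (by
      intro h
      rw [QuotientAddGroup.eq_zero_iff] at h
      exact hne h)
    (by
      rw [← QuotientAddGroup.mk_nsmul, QuotientAddGroup.eq_zero_iff]
      refine ⟨0, smul_zero _, fun h hh => ?_⟩
      show (l • c) h = _
      rw [Pi.smul_apply, hZ1 c hc h hh, smul_zero, sub_zero])
  induction b using QuotientAddGroup.induction_on with
  | H z =>
    have hinv : ∀ g, Cob l H (cj g z.1 - z.1) := by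
      intro g
      have h1 := hb2 g
      rw [hφ, eq_comm, QuotientAddGroup.eq] at h1
      have h2 : Cob l H (-z.1 + cj g z.1) := h1
      rwa [neg_add_eq_sub] at h2
    obtain ⟨η, h1, h2, h3⟩ := extend (hZ2 _ z.2) (hZ1 _ z.2) (fixed_zero hl H hP hM) hinv
    obtain ⟨T, hT1, hT2⟩ := hbase η (hext z.1 η (fun h hh => (h3 h hh).symm) z.2) h1 h2
    apply hb
    rw [QuotientAddGroup.eq_zero_iff]
    exact ⟨T, hT1, fun h hh => by rw [← h3 h hh, hT2 h]⟩

end

end Pool.Agent.R901.LD
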