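import Pool.Agent.W275.FM.All

/-!
# Division of points over algebraically closed fields
-/

set_option autoImplicit false

open WeierstrassCurve Pool.Agent.H901R3.MS Pool.Agent.W275.FM

namespace Pool.Agent.R901.LD

section

variable {F : Type} [Field F] [IsAlgClosed F] [CharZero F] {a b : F}

open scoped Classical in
/-- multiplication by `n` is surjective -/
lemma exists_nsmul_eq (hD : Disc a b) {n : ℕ} (hn : 1 ≤ n) (P : Pt a b) :
    ∃ Q : Pt a b, n • Q = P := by
  rcases P with _ | ⟨x0, y0, h0⟩
  · exact ⟨0, smul_zero _⟩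
  · obtain ⟨U, V, hcop, hU, hV, hmul⟩ := mul F a b hD n hn
    have hn2 : 1 ≤ n ^ 2 := Nat.one_le_pow _ _ hn
    have hdeg : (U - Polynomial.C x0 * V).natDegree = n ^ 2 := by
      rw [Polynomial.natDegree_sub_eq_left_of_natDegree_lt, hU]
      rw [hU]
      exact (Polynomial.natDegree_C_mul_le _ _).trans_lt hV
    obtain ⟨x, hx⟩ := IsAlgClosed.exists_root (U - Polynomial.C x0 * V) (by
      intro h
      have := Polynomial.natDegree_eq_zero_iff_degree_le_zero.2 h.le
      rw [hdeg] at this
      omega)
    rw [Polynomial.IsRoot.def, Polynomial.eval_sub, Polynomial.eval_mul, Polynomial.eval_C,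
      sub_eq_zero] at hx
    have hVx : V.eval x ≠ 0 := by
      intro h
      rw [h, mul_zero] at hx
      obtain ⟨A, B, hAB⟩ := hcop
      have := congrArg (Polynomial.eval x) hAB
      rw [Polynomial.eval_add, Polynomial.eval_mul, Polynomial.eval_mul, hx, h] at this
      simp at this
    obtain ⟨y, hy⟩ := IsAlgClosed.exists_pow_nat_eq (x ^ 3 + a * x + b) (n := 2) (by norm_num)
    have hns : (CV a b).toAffine.Nonsingular x y := (nonsingular_iff hD).2 hy
    obtain ⟨μ, hμ, e1, e2⟩ := hmul x y hns
    have hQ : ∃ (y1 : F) (h1 : (CV a b).toAffine.Nonsingular x0 y1),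
        n • (Affine.Point.some x y hns : Pt a b) = Affine.Point.some x0 y1 h1 := by
      rcases hq : n • (Affine.Point.some x y hns : Pt a b) with _ | ⟨x1, y1, h1⟩
      · rw [hq] at e2
        exact absurd e2.symm (mul_ne_zero hμ hVx)
      · rw [hq] at e1 e2
        have e1' : x1 = μ * U.eval x := e1
        have e2' : 1 = μ * V.eval x := e2
        have : x1 = x0 := by
          rw [e1', hx]
          linear_combination -x0 * e2'
        subst this
        exact ⟨y1, h1, rfl⟩
    obtain ⟨y1, h1, hQ⟩ := hQ
    have hy01 : y1 ^ 2 = y0 ^ 2 := by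
      have k1 := eqn_of h1
      have k0 := eqn_of h0
      unfold Eqn at k1 k0
      rw [k1, k0]
    rcases sq_eq_sq_iff_eq_or_eq_neg.mp hy01 with h | h
    · subst h
      exact ⟨_, hQ⟩
    · subst h
      refine ⟨-(Affine.Point.some x y hns : Pt a b), ?_⟩
      rw [smul_neg, hQ, neg_some' h1 (by rw [neg_neg]; exact h0)]
      simp only [neg_neg]

/-- coordinates of a point -/
def ckey : Pt a b → Option (F × F)
  | Affine.Point.zero => none
  | Affine.Point.some x y _ => some (x, y)

lemma ckey_inj : Function.Injective (ckey : Pt a b → Option (F × F)) := by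
  intro P Q h
  rcases P with _ | ⟨x, y, hxy⟩ <;> rcases Q with _ | ⟨x', y', hxy'⟩
  · rfl
  · simp [ckey] at h
  · simp [ckey] at h
  · simp only [ckey, Option.some.injEq, Prod.mk.injEq] at h
    obtain ⟨rfl, rfl⟩ := h
    rfl


end

end Pool.Agent.R901.LD
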