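import Pool.Agent.W275.FM.All
import Pool.Agent.Y213.EC.Red
import Pool.Agent.TH841.NF.Chi
import Pool.Agent.R901.LD.Div
import Pool.Agent.R901.LD.Abs2

/-!
# The points of `y² = x³ + a x + b` over fields of characteristic zero
-/

set_option autoImplicit false
set_option linter.style.haveILetI false

namespace Pool.Agent.R901.LD

open WeierstrassCurve
open Pool.Agent.TH841.SH.D (act Gal Pt)
open Pool.Agent.H901R3.MS (CV Disc)

attribute [local instance] Classical.decEq

/-- the curve `y² = x³ + a x + b` over `ℚ` -/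
def EW (a b : ℤ) : WeierstrassCurve ℚ := ⟨0, 0, 0, a, b⟩

/-- its points over `L` -/
abbrev SP (a b : ℤ) (L : Type) [Field L] [Algebra ℚ L] : Type := Pt (EW a b) L

theorem tr {L : Type} [Field L] {W1 W2 : WeierstrassCurve L} (h : W1 = W2) :
    ∃ e : W1.toAffine.Point ≃+ W2.toAffine.Point,
      ∀ x y h1, ∃ h2, e (Affine.Point.some x y h1) = Affine.Point.some x y h2 := by
  subst h
  exact ⟨AddEquiv.refl _, fun x y h1 => ⟨h1, rfl⟩⟩

section
variable {a b : ℤ} {L : Type} [Field L] [Algebra ℚ L]

/-- the point `(x, y)` -/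
def mkp (x y : L) (h : ((EW a b).baseChange L).toAffine.Nonsingular x y) : SP a b L :=
  Affine.Point.some x y h

theorem mkp_inj {x y x' y' : L} {h : ((EW a b).baseChange L).toAffine.Nonsingular x y}
    {h' : ((EW a b).baseChange L).toAffine.Nonsingular x' y'} (e : mkp x y h = mkp x' y' h') :
    x = x' ∧ y = y' := by
  have e' : (Affine.Point.some x y h : ((EW a b).baseChange L).toAffine.Point) =
    Affine.Point.some x' y' h' := e
  injection e' with h1 h2
  exact ⟨h1, h2⟩

theorem mkp_congr {x y x' y' : L} {h : ((EW a b).baseChange L).toAffine.Nonsingular x y}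
    {h' : ((EW a b).baseChange L).toAffine.Nonsingular x' y'} (h1 : x = x') (h2 : y = y') :
    mkp x y h = mkp x' y' h' := by
  subst h1
  subst h2
  rfl

theorem mkp_ne {x y : L} {h : ((EW a b).baseChange L).toAffine.Nonsingular x y} :
    mkp x y h ≠ 0 := by
  intro e
  have e' : (Affine.Point.some x y h : ((EW a b).baseChange L).toAffine.Point) =
    Affine.Point.zero := e
  cases e'

theorem base_eq : (EW a b).baseChange L = CV (a : L) (b : L) := by
  ext <;> simp [EW, CV, WeierstrassCurve.baseChange, WeierstrassCurve.map]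

variable (a b L) in
theorem exists_iso : ∃ e : SP a b L ≃+ Pool.Agent.H901R3.MS.Pt (a : L) (b : L),
    ∀ (x y : L) (h : ((EW a b).baseChange L).toAffine.Nonsingular x y), ∃ h',
      e (mkp x y h) = Affine.Point.some x y h' :=
  tr base_eq

variable (a b L) in
/-- the identification -/
noncomputable def iso : SP a b L ≃+ Pool.Agent.H901R3.MS.Pt (a : L) (b : L) :=
  (exists_iso a b L).choose

theorem iso_some (x y : L) (h : ((EW a b).baseChange L).toAffine.Nonsingular x y) : ∃ h',
    iso a b L (mkp x y h) = Affine.Point.some x y h' :=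
  (exists_iso a b L).choose_spec x y h

theorem ns_iff {x y : L} (h : (CV (a : L) (b : L)).toAffine.Nonsingular x y) :
    ((EW a b).baseChange L).toAffine.Nonsingular x y := by
  rw [base_eq]
  exact h

/-- case distinction -/
theorem cases (P : SP a b L) : P = 0 ∨
    ∃ (x y : L) (h : ((EW a b).baseChange L).toAffine.Nonsingular x y), P = mkp x y h := by
  rcases P with _ | ⟨x, y, h⟩
  · exact Or.inl rfl
  · exact Or.inr ⟨x, y, h, rfl⟩

theorem act_some {L' : Type} [Field L'] [Algebra ℚ L'] (φ : L →ₐ[ℚ] L') (x y : L)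
    (h : ((EW a b).baseChange L).toAffine.Nonsingular x y) :
    ∃ h', act (EW a b) φ (mkp x y h) = mkp (φ x) (φ y) h' :=
  ⟨_, rfl⟩

/-- division -/
theorem exists_div [IsAlgClosed L] (hd : 4 * a ^ 3 + 27 * b ^ 2 ≠ 0) {n : ℕ} (hn : 1 ≤ n)
    (P : SP a b L) : ∃ Q, n • Q = P := by
  haveI : CharZero L := algebraRat.charZero L
  have hD : Disc (a : L) (b : L) := by
    unfold Disc
    have h : ((4 * a ^ 3 + 27 * b ^ 2 : ℤ) : L) ≠ 0 := by exact_mod_cast hd
    push_cast at h
    exact mul_ne_zero two_ne_zero h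
  obtain ⟨Q, hQ⟩ := exists_nsmul_eq hD hn (iso a b L P)
  refine ⟨(iso a b L).symm Q, (iso a b L).injective ?_⟩
  rw [map_nsmul, AddEquiv.apply_symm_apply]
  convert hQ

/-- finiteness of torsion -/
theorem fin_tor [IsAlgClosed L] (hd : 4 * a ^ 3 + 27 * b ^ 2 ≠ 0) {n : ℕ} (hn : 1 ≤ n) :
    {P : SP a b L | n • P = 0}.Finite := by
  haveI : CharZero L := algebraRat.charZero L
  have hD : Disc (a : L) (b : L) := by
    unfold Disc
    have h : ((4 * a ^ 3 + 27 * b ^ 2 : ℤ) : L) ≠ 0 := by exact_mod_cast hd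
    push_cast at h
    exact mul_ne_zero two_ne_zero h
  have h1 := (Pool.Agent.W275.FM.tor L (a : L) (b : L) hD n hn).1
  refine Set.Finite.of_finite_image (f := iso a b L) (h1.subset ?_) (iso a b L).injective.injOn
  rintro _ ⟨P, hP, rfl⟩
  show n • iso a b L P = 0
  rw [← map_nsmul, show n • P = 0 from hP, map_zero]

end

section galois

variable {a b : ℤ} {k L : Type} [Field k] [Field L] [Algebra ℚ k] [Algebra k L] [Algebra ℚ L]
  [IsScalarTower ℚ k L]

/-- the action of automorphisms on points -/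
noncomputable instance galAct : DistribMulAction (L ≃ₐ[k] L) (SP a b L) where
  smul t P := act (EW a b) (t.toAlgHom.restrictScalars ℚ) P
  one_smul P := Pool.Agent.TH841.NF.act_id (EW a b) ((1 : L ≃ₐ[k] L).toAlgHom.restrictScalars ℚ)
    (fun _ => rfl) P
  mul_smul s t P := (Pool.Agent.TH841.NF.act_act (EW a b) (s.toAlgHom.restrictScalars ℚ)
    (t.toAlgHom.restrictScalars ℚ) P).symm
  smul_zero t := map_zero (act (EW a b) (t.toAlgHom.restrictScalars ℚ))
  smul_add t P Q := map_add (act (EW a b) (t.toAlgHom.restrictScalars ℚ)) P Q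

theorem smul_def (t : L ≃ₐ[k] L) (P : SP a b L) :
    t • P = act (EW a b) (t.toAlgHom.restrictScalars ℚ) P := rfl

theorem smul_some (t : L ≃ₐ[k] L) (x y : L)
    (h : ((EW a b).baseChange L).toAffine.Nonsingular x y) :
    ∃ h', t • (mkp x y h : SP a b L) = mkp (t x) (t y) h' := ⟨_, rfl⟩

end galois

end Pool.Agent.R901.LD
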