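import Pool.Agent.R901.LD.Pts
import Pool.Agent.R901.EC.Tower

/-!
# Roots of unity in an algebraic closure of `ℚ_p`; the fields of characters
-/

set_option autoImplicit false

namespace Pool.Agent.R901.LD

open WeierstrassCurve
open Pool.Agent.W94.F3 (Cp Gp norm_gal)

section
variable {p : ℕ} [hp : Fact p.Prime]

theorem norm_root {n : ℕ} (hn : n ≠ 0) {w : Cp p} (h : w ^ n = 1) : ‖w‖ = 1 := by
  have h1 : ‖w‖ ^ n = 1 := by rw [← norm_pow, h, norm_one]
  exact (pow_eq_one_iff_of_nonneg (norm_nonneg _) hn).1 h1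

/-- roots of unity of order prime to `p` are determined by their residues -/
theorem root_eq_one {n : ℕ} (hpn : ¬ p ∣ n) {w : Cp p} (h : w ^ n = 1) (h1 : ‖w - 1‖ < 1) :
    w = 1 := by
  have hn : n ≠ 0 := by
    rintro rfl
    exact hpn (dvd_zero _)
  by_contra hne
  have h2 : ∑ i ∈ Finset.range n, w ^ i = 0 := by
    have h3 := geom_sum_mul w n
    rw [h, sub_self] at h3
    exact (mul_eq_zero.1 h3).resolve_right (sub_ne_zero.2 hne)
  have hw : ‖w‖ ≤ 1 := (norm_root hn h).le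
  let w' : Oc p := ⟨w, hw⟩
  have h3 : (Ideal.Quotient.mk (mc p) w' : Kc p) = 1 := by
    rw [← map_one (Ideal.Quotient.mk (mc p)), Ideal.Quotient.eq, mem_mc]
    exact h1
  have h4 : (∑ i ∈ Finset.range n, w' ^ i : Oc p) = 0 := by
    apply Subtype.ext
    have e := map_sum (Oc p).subtype (fun i => w' ^ i) (Finset.range n)
    have e2 : (∑ i ∈ Finset.range n, (Oc p).subtype (w' ^ i)) = 0 := h2
    rw [e2] at e
    exact e
  have h5 := congrArg (Ideal.Quotient.mk (mc p)) h4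
  rw [map_sum, map_zero] at h5
  have h6 : ∑ i ∈ Finset.range n, (Ideal.Quotient.mk (mc p)) (w' ^ i) = (n : Kc p) := by
    rw [Finset.sum_congr rfl fun i _ => by rw [map_pow, h3, one_pow]]
    simp
  rw [h6, CharP.cast_eq_zero_iff (Kc p) p] at h5
  exact hpn h5

theorem root_eq {n : ℕ} (hpn : ¬ p ∣ n) {w z : Cp p} (hw : w ^ n = 1) (hz : z ^ n = 1)
    (h1 : ‖w - z‖ < 1) : w = z := by
  have hn : n ≠ 0 := by
    rintro rfl
    exact hpn (dvd_zero _)
  have hz0 : z ≠ 0 := by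
    rintro rfl
    rw [zero_pow hn] at hz
    exact zero_ne_one hz
  have hz1 := norm_root hn hz
  have h2 : w / z = 1 := by
    refine root_eq_one hpn (by rw [div_pow, hw, hz, div_one]) ?_
    have e : w / z - 1 = (w - z) / z := by
      rw [sub_div, div_self hz0]
    rw [e, norm_div, hz1, div_one]
    exact h1
  exact (div_eq_one_iff_eq hz0).1 h2

/-- the decomposition group acts on the roots of unity by powers of `p` -/
theorem frob_pow {n : ℕ} (hpn : ¬ p ∣ n) (t : Gp p) :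
    ∃ j : ℕ, ∀ w : Cp p, w ^ n = 1 → t w = w ^ (p ^ j) := by
  classical
  have hn : n ≠ 0 := by
    rintro rfl
    exact hpn (dvd_zero _)
  let T : Set (Kc p) := {y | ∃ x : Cp p, x ^ n = 1 ∧ ∃ h : ‖x‖ ≤ 1,
    y = Ideal.Quotient.mk (mc p) ⟨x, h⟩}
  have hroots : {x : Cp p | x ^ n = 1}.Finite := by
    refine (Finset.finite_toSet (Polynomial.nthRootsFinset n (1 : Cp p))).subset ?_
    intro x hx
    rw [Finset.mem_coe, Polynomial.mem_nthRootsFinset (Nat.pos_of_ne_zero hn)]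
    exact hx
  have hT : T.Finite := by
    refine (hroots.image fun x => (plc p).r x).subset ?_
    rintro y ⟨x, hx, h, rfl⟩
    exact ⟨x, hx, plc_r p h⟩
  let k0 : IntermediateField (ZMod p) (Kc p) := IntermediateField.adjoin (ZMod p) T
  have hTf : Finite T := hT.to_subtype
  have hfd : FiniteDimensional (ZMod p) k0 :=
    IntermediateField.finiteDimensional_adjoin fun x _ => isInt_Kc p x
  have hfin : Finite k0 := Module.finite_of_finite (ZMod p)
  obtain ⟨j, hj⟩ := (FiniteField.bijective_frobeniusAlgEquivOfAlgebraic_pow (ZMod p) k0).2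
    ((gE t).restrictNormal k0)
  refine ⟨j.1, fun w hw => ?_⟩
  have hw1 := norm_root hn hw
  have hpw : (w ^ (p ^ j.1)) ^ n = 1 := by rw [← pow_mul, mul_comm, pow_mul, hw, one_pow]
  refine root_eq hpn (by rw [← map_pow, hw, map_one]) hpw ?_
  have hxT : (Ideal.Quotient.mk (mc p) ⟨w, hw1.le⟩ : Kc p) ∈ k0 :=
    IntermediateField.subset_adjoin _ _ ⟨w, hw, hw1.le, rfl⟩
  have h2 := AlgEquiv.restrictNormal_commutes (gE t) k0
    ⟨Ideal.Quotient.mk (mc p) ⟨w, hw1.le⟩, hxT⟩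
  rw [← hj] at h2
  have h3 : ∀ (m : ℕ) (y : k0), (FiniteField.frobeniusAlgEquivOfAlgebraic (ZMod p) k0 ^ m) y =
      y ^ (p ^ m) := by
    intro m
    induction m with
    | zero => intro y; rw [pow_zero, pow_zero, pow_one]; rfl
    | succ m ih =>
      intro y
      rw [pow_succ, AlgEquiv.mul_apply, ih, FiniteField.coe_frobeniusAlgEquivOfAlgebraic]
      show (y ^ Fintype.card (ZMod p)) ^ p ^ m = _
      rw [ZMod.card, ← pow_mul, pow_succ']
  have h4 : algebraMap k0 (Kc p) ((FiniteField.frobeniusAlgEquivOfAlgebraic (ZMod p) k0 ^ j.1)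
      ⟨Ideal.Quotient.mk (mc p) ⟨w, hw1.le⟩, hxT⟩) =
      gE t (Ideal.Quotient.mk (mc p) ⟨w, hw1.le⟩) := h2
  rw [h3, gE_apply, gK_mk] at h4
  have h5 : (Ideal.Quotient.mk (mc p) (⟨w, hw1.le⟩ ^ (p ^ j.1)) : Kc p) =
      Ideal.Quotient.mk (mc p) (gO t ⟨w, hw1.le⟩) := by
    rw [map_pow, ← h4]
    rfl
  rw [eq_comm, Ideal.Quotient.eq, mem_mc] at h5
  exact h5

end

/-- the restriction of automorphisms to a normal subfield -/
theorem exists_res1 {k C : Type} [Field k] [Field C] [Algebra ℚ k] [Algebra k C] [Algebra ℚ C]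
    [IsScalarTower ℚ k C] {L : Type} [Field L] [Algebra ℚ L] [Normal ℚ L] (ι : L →ₐ[ℚ] C)
    (t : C ≃ₐ[k] C) : ∃ σ : L ≃ₐ[ℚ] L, ∀ x, t (ι x) = ι (σ x) := by
  let _ : Algebra L C := ι.toRingHom.toAlgebra
  have : IsScalarTower ℚ L C := IsScalarTower.of_algebraMap_eq fun x => (ι.commutes x).symm
  exact ⟨(t.restrictScalars ℚ).restrictNormal L, fun x =>
    (AlgEquiv.restrictNormal_commutes (t.restrictScalars ℚ) L x).symm⟩

section cyc

open NumberField
open IsCyclotomicExtension.Rat (galEquivZMod)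
open Pool.Agent.Y18.LP (Fam sp cvl UU XX XX_nat XX_pow XX_mul eta_act sp_sub mem_sp dvd_dd)
open Pool.Agent.Y18.BSD (dd dd_ne_zero dd_dvd)

variable (n : ℕ) [NeZero n] (L : Type) [Field L] [NumberField L] [IsCyclotomicExtension {n} ℚ L]

include n in
/-- the degree of an abelian field with Galois group of exponent `l ^ k` -/
theorem pgroup_of (F : IntermediateField ℚ L) {l : ℕ} (hl : l.Prime) (k : ℕ)
    (h : ∀ σ : L ≃ₐ[ℚ] L, ∀ x ∈ F, (σ ^ (l ^ k)) x = x) : ∃ j, Module.finrank ℚ F = l ^ j := by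
  have : IsGalois ℚ F := Pool.Agent.Y702.L.gal_F n L F
  have : IsGalois ℚ L := IsCyclotomicExtension.isGalois {n} ℚ L
  have : Fact (Nat.Prime l) := ⟨hl⟩
  have hp : IsPGroup l (F ≃ₐ[ℚ] F) := by
    intro g
    refine ⟨k, ?_⟩
    obtain ⟨σ, rfl⟩ := AlgEquiv.restrictNormalHom_surjective (F := ℚ) (K₁ := F) L g
    rw [← map_pow]
    apply AlgEquiv.ext
    intro x
    have h1 := AlgEquiv.restrictNormal_commutes (σ ^ (l ^ k)) F x
    apply (algebraMap F L).injective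
    exact h1.trans (h σ x x.2)
  obtain ⟨j, hj⟩ := IsPGroup.iff_card.1 hp
  exact ⟨j, by rw [← IsGalois.card_aut_eq_finrank, hj]⟩

/-- the action of the local Galois group on a cyclotomic field -/
theorem local_frob {p : ℕ} [hp : Fact p.Prime] (hpn : p.Coprime n) [Algebra ℚ (Cp p)]
    [IsScalarTower ℚ ℚ_[p] (Cp p)] (i : L →ₐ[ℚ] Cp p) (t : Gp p) :
    ∃ (σ : L ≃ₐ[ℚ] L) (j : ℕ), (∀ x, t (i x) = i (σ x)) ∧
      galEquivZMod n L σ = (ZMod.unitOfCoprime p hpn) ^ j := by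
  have : IsGalois ℚ L := IsCyclotomicExtension.isGalois {n} ℚ L
  have hpn' : ¬ p ∣ n := (Nat.Prime.coprime_iff_not_dvd hp.1).1 hpn
  obtain ⟨σ, hσ⟩ := exists_res1 i t
  obtain ⟨j, hj⟩ := frob_pow (p := p) hpn' t
  refine ⟨σ, j, hσ, ?_⟩
  have hζ := IsCyclotomicExtension.zeta_spec n ℚ L
  set ζ := IsCyclotomicExtension.zeta n ℚ L with hζdef
  have hζ1 : ζ ^ n = 1 := hζ.pow_eq_one
  have h1 : σ ζ = ζ ^ (galEquivZMod n L σ).val.val :=
    IsCyclotomicExtension.Rat.galEquivZMod_apply_of_pow_eq n L σ hζ1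
  have h2 : σ ζ = ζ ^ (p ^ j) := by
    apply i.toRingHom.injective
    show i (σ ζ) = i (ζ ^ (p ^ j))
    rw [← hσ, map_pow]
    exact hj (i ζ) (by rw [← map_pow, hζ1, map_one])
  rw [h1] at h2
  have h3 : (galEquivZMod n L σ).val.val % n = p ^ j % n := by
    have h5 : ζ ^ (p ^ j) = ζ ^ (p ^ j % n) := by
      conv_rhs => rw [hζ.eq_orderOf, pow_mod_orderOf]
    rw [h5] at h2
    rw [Nat.mod_eq_of_lt (ZMod.val_lt _)]
    exact hζ.pow_inj (ZMod.val_lt _) (Nat.mod_lt _ (NeZero.pos n)) h2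
  apply Units.ext
  have h4 : (((galEquivZMod n L σ).val.val : ℕ) : ZMod n) = ((p ^ j : ℕ) : ZMod n) :=
    (ZMod.natCast_eq_natCast_iff' _ _ _).2 h3
  rw [ZMod.natCast_zmod_val] at h4
  rw [h4]
  push_cast
  rfl

end cyc

end Pool.Agent.R901.LD
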