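import Pool.Agent.R901.LD.LocP

/-!
# Selmer groups over extensions of `l`-power degree
-/

set_option autoImplicit false

namespace Pool.Agent.R901.LD

open WeierstrassCurve
open Pool.Agent.TH841.SH.D (act Gal Pt)
open Pool.Agent.TH841.NF (act_act act_id)

attribute [local instance] Classical.decEq
attribute [local instance 10000] AlgebraicClosure.instAlgebra

/-- an algebraic closure of `ℚ` -/
abbrev Qb : Type := AlgebraicClosure ℚ

/-- the restriction of `f` to the subgroup `H` is trivial at the places over the one of `K` -/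
def LT (a b : ℤ) (H : Subgroup (Gal ℚ)) (K : Type) [Field K] [Algebra ℚ K]
    (f : Gal ℚ → SP a b Qb) : Prop :=
  ∀ ι : Qb →ₐ[ℚ] AlgebraicClosure K, ∃ P : SP a b (AlgebraicClosure K),
    ∀ (τ : Gal K) (σ : Gal ℚ), σ ∈ H → (∀ x, τ (ι x) = ι (σ x)) →
      act (EW a b) ι (f σ) = act (EW a b) (τ.toAlgHom.restrictScalars ℚ) P - P

section
variable {a b : ℤ} {H : Subgroup (Gal ℚ)} {K : Type} [Field K] [Algebra ℚ K]

theorem LT.zero : LT a b H K 0 := fun ι => ⟨0, fun τ σ _ _ => by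
  show act (EW a b) ι 0 = _
  rw [map_zero, map_zero, sub_zero]⟩

theorem LT.add {f g : Gal ℚ → SP a b Qb} (hf : LT a b H K f) (hg : LT a b H K g) :
    LT a b H K (f + g) := by
  intro ι
  obtain ⟨P, hP⟩ := hf ι
  obtain ⟨Q, hQ⟩ := hg ι
  refine ⟨P + Q, fun τ σ hσ h => ?_⟩
  show act (EW a b) ι (f σ + g σ) = _
  rw [map_add, map_add, hP τ σ hσ h, hQ τ σ hσ h]
  abel

theorem LT.neg {f : Gal ℚ → SP a b Qb} (hf : LT a b H K f) : LT a b H K (-f) := by
  intro ι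
  obtain ⟨P, hP⟩ := hf ι
  refine ⟨-P, fun τ σ hσ h => ?_⟩
  show act (EW a b) ι (-f σ) = _
  rw [map_neg, map_neg, hP τ σ hσ h]
  abel

theorem LT.cj [H.Normal] {f : Gal ℚ → SP a b Qb} (hf : LT a b H K f) (g : Gal ℚ) :
    LT a b H K (cj g f) := by
  intro ι
  obtain ⟨P, hP⟩ := hf (ι.comp g.toAlgHom)
  refine ⟨P, fun τ σ hσ h => ?_⟩
  have hx' : g⁻¹ * σ * g ∈ H := by
    have := Subgroup.Normal.conj_mem (inferInstance : H.Normal) σ hσ g⁻¹
    rwa [inv_inv] at this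
  rw [← hP τ (g⁻¹ * σ * g) hx' ?_]
  · show act (EW a b) ι (act (EW a b) _ (f (g⁻¹ * σ * g))) = _
    rw [act_act]
    rfl
  · intro x
    show τ (ι (g x)) = ι (g ((g⁻¹ * σ * g) x))
    rw [h]
    congr 1
    show σ (g x) = g (g.symm (σ (g x)))
    rw [AlgEquiv.apply_symm_apply]

theorem LT.ext {f f' : Gal ℚ → SP a b Qb} (h : ∀ σ ∈ H, f σ = f' σ) (hf : LT a b H K f) :
    LT a b H K f' := by
  intro ι
  obtain ⟨P, hP⟩ := hf ι
  exact ⟨P, fun τ σ hσ h1 => by rw [← h σ hσ]; exact hP τ σ hσ h1⟩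

end

/-- the group of the `l`-torsion cocycles on `H` that are locally trivial -/
def Zs (a b : ℤ) (l : ℕ) (H : Subgroup (Gal ℚ)) : AddSubgroup (Gal ℚ → SP a b Qb) where
  carrier := {f | (∀ h ∈ H, l • f h = 0) ∧ CocOn H f ∧
    (∃ U : Subgroup (Gal ℚ), IsOpen (U : Set (Gal ℚ)) ∧ ∀ u ∈ U, u ∈ H → f u = 0) ∧
    (∀ (p : ℕ) [Fact p.Prime], LT a b H ℚ_[p] f) ∧ LT a b H ℝ f}
  zero_mem' := ⟨fun _ _ => smul_zero _, fun g _ h _ => by
      show (0 : SP a b Qb) = 0 + g • (0 : SP a b Qb)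
      rw [smul_zero, add_zero],
    ⟨⊤, isOpen_univ, fun _ _ _ => rfl⟩, fun _ _ => LT.zero, LT.zero⟩
  add_mem' := by
    rintro f f' ⟨h1, h2, ⟨U, hU, h3⟩, h4, h5⟩ ⟨h1', h2', ⟨U', hU', h3'⟩, h4', h5'⟩
    refine ⟨fun h hh => ?_, fun g hg h hh => ?_, ⟨U ⊓ U', hU.inter hU', fun u hu huH => ?_⟩,
      fun p _ => (h4 p).add (h4' p), h5.add h5'⟩
    · show l • (f h + f' h) = 0
      rw [smul_add, h1 h hh, h1' h hh, add_zero]
    · show f (g * h) + f' (g * h) = (f g + f' g) + g • (f h + f' h)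
      rw [h2 g hg h hh, h2' g hg h hh, smul_add]
      abel
    · show f u + f' u = 0
      rw [h3 u hu.1 huH, h3' u hu.2 huH, add_zero]
  neg_mem' := by
    rintro f ⟨h1, h2, ⟨U, hU, h3⟩, h4, h5⟩
    refine ⟨fun h hh => ?_, fun g hg h hh => ?_, ⟨U, hU, fun u hu huH => ?_⟩,
      fun p _ => (h4 p).neg, h5.neg⟩
    · show l • (-f h) = 0
      rw [smul_neg, h1 h hh, neg_zero]
    · show -f (g * h) = -f g + g • (-f h)
      rw [h2 g hg h hh, smul_neg]
      abel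
    · show -f u = 0
      rw [h3 u hu huH, neg_zero]

theorem Zs.cj {a b : ℤ} {l : ℕ} {H : Subgroup (Gal ℚ)} [H.Normal] (g : Gal ℚ)
    {f : Gal ℚ → SP a b Qb} (hf : f ∈ Zs a b l H) : cj g f ∈ Zs a b l H := by
  obtain ⟨h1, h2, ⟨U, hU, h3⟩, h4, h5⟩ := hf
  have hc : ∀ x ∈ H, g⁻¹ * x * g ∈ H := by
    intro x hx
    have := Subgroup.Normal.conj_mem (inferInstance : H.Normal) x hx g⁻¹
    rwa [inv_inv] at this
  refine ⟨fun h hh => ?_, fun x hx y hy => ?_, ?_, fun p _ => (h4 p).cj g, h5.cj g⟩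
  · rw [cj_apply, ← smul_comm, h1 _ (hc h hh), smul_zero]
  · rw [cj_apply, cj_apply, cj_apply]
    have e : g⁻¹ * (x * y) * g = (g⁻¹ * x * g) * (g⁻¹ * y * g) := by group
    rw [e, h2 _ (hc x hx) _ (hc y hy), smul_add]
    congr 1
    rw [smul_smul, smul_smul]
    congr 1
    group
  · refine ⟨U.comap (MulAut.conj g⁻¹).toMonoidHom, ?_, fun u hu huH => ?_⟩
    · have : Continuous fun x : Gal ℚ => (MulAut.conj g⁻¹) x := by
        have e : (fun x : Gal ℚ => (MulAut.conj g⁻¹) x) = fun x => g⁻¹ * x * g := by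
          funext x
          simp [MulAut.conj_apply]
        rw [e]
        fun_prop
      exact hU.preimage this
    · have hu' : g⁻¹ * u * g ∈ U := by
        have : (MulAut.conj g⁻¹) u ∈ U := hu
        simpa [MulAut.conj_apply] using this
      rw [cj_apply, h3 _ hu' (hc u huH), smul_zero]

/-- the restriction of automorphisms of an extension `C` of `Qb` -/
theorem exists_res {k C : Type} [Field k] [Field C] [Algebra ℚ k] [Algebra k C] [Algebra ℚ C]
    [IsScalarTower ℚ k C] (ι : Qb →ₐ[ℚ] C) :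
    ∃ r : (C ≃ₐ[k] C) →* Gal ℚ, ∀ t x, t (ι x) = ι (r t x) := by
  let _ : Algebra Qb C := ι.toRingHom.toAlgebra
  have : IsScalarTower ℚ Qb C := IsScalarTower.of_algebraMap_eq fun x => (ι.commutes x).symm
  have : Normal ℚ Qb := inferInstance
  refine ⟨(AlgEquiv.restrictNormalHom Qb).comp (AlgEquiv.restrictScalarsHom ℚ), fun t x => ?_⟩
  exact (AlgEquiv.restrictNormal_commutes (t.restrictScalars ℚ) Qb x).symm

end Pool.Agent.R901.LD
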