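import Pool.Agent.R901.LD.Abs2

/-!
# Local lemmas: cocycles that become trivial on a subgroup of `l`-power index
-/

set_option autoImplicit false

namespace Pool.Agent.R901.LD

section
variable {D N : Type} [Group D] [AddCommGroup N] [DistribMulAction D N]

/-- the elements at which a cocycle vanishes -/
def zer (e : D → N) (he : ∀ s t, e (s * t) = e s + s • e t) : Subgroup D where
  carrier := {t | e t = 0}
  one_mem' := by
    have h := he 1 1
    rw [mul_one, one_smul] at h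
    exact left_eq_add.1 h
  mul_mem' := by
    intro s t hs ht
    show e (s * t) = 0
    rw [he, show e s = 0 from hs, show e t = 0 from ht, smul_zero, add_zero]
  inv_mem' := by
    intro s hs
    have h1 : e 1 = 0 := by
      have h := he 1 1
      rw [mul_one, one_smul] at h
      exact left_eq_add.1 h
    have h := he s s⁻¹
    rw [mul_inv_cancel, h1, show e s = 0 from hs, zero_add] at h
    show e s⁻¹ = 0
    have h2 := congrArg (fun x => s⁻¹ • x) h
    simpa using h2.symm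

theorem cob_coc (R : N) (s t : D) : (s * t) • R - R = (s • R - R) + s • (t • R - R) := by
  rw [smul_sub, smul_smul]
  abel

theorem sub_coc {e : D → N} (he : ∀ s t, e (s * t) = e s + s • e t) (R : N) (s t : D) :
    e (s * t) - ((s * t) • R - R) = (e s - (s • R - R)) + s • (e t - (t • R - R)) := by
  rw [he, cob_coc, smul_sub s (e t)]
  abel

variable {N' : Type} [AddCommGroup N']

/-- ramified case: no `l`-torsion fixed by `D` -/
theorem locB {l : ℕ} (hl : l.Prime) (red : N →+ N')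
    (hinj : ∀ (m : ℕ) (P : N), l ^ m • P = 0 → red P = 0 → P = 0)
    (Dw : Subgroup D) [Dw.Normal] [Finite (D ⧸ Dw)] (hP : IsPGroup l (D ⧸ Dw))
    (hfin : ∀ m : ℕ, {P : N | l ^ m • P = 0}.Finite)
    (hcyc : ∀ S : Set N, S.Finite → ∃ ψ ∈ Dw, ∀ t ∈ Dw, ∃ (k : ℤ) (u : D), u ∈ Dw ∧ t = ψ ^ k * u ∧
      ∀ P ∈ S, red (u • P) = red P)
    (hM : ∀ T : N, l • T = 0 → (∀ g : D, g • T = T) → T = 0)
    (e : D → N) (he : ∀ s t, e (s * t) = e s + s • e t) (hle : ∀ t, l • e t = 0)
    (R : N) (hR : ∀ t ∈ Dw, e t = t • R - R) : ∃ T : N, ∀ t, e t = t • T - T := by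
  classical
  let A : AddSubgroup N :=
    { carrier := {P | l ^ 1 • P = 0}
      zero_mem' := smul_zero _
      add_mem' := by
        intro x y h1 h2
        show l ^ 1 • (x + y) = 0
        rw [smul_add, show l ^ 1 • x = 0 from h1, show l ^ 1 • y = 0 from h2, add_zero]
      neg_mem' := by
        intro x h1
        show l ^ 1 • (-x) = 0
        rw [smul_neg, show l ^ 1 • x = 0 from h1, neg_zero] }
  have hAfin : Finite A := (hfin 1).to_subtype
  obtain ⟨ψ, hψ, hcy⟩ := hcyc ({P : N | l ^ 1 • P = 0} ∪ {R}) ((hfin 1).union (Set.finite_singleton R))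
  have hu1 : ∀ u : D, (∀ P ∈ ({P : N | l ^ 1 • P = 0} ∪ {R} : Set N), red (u • P) = red P) →
      ∀ P : N, l ^ 1 • P = 0 → u • P = P := by
    intro u hu P hP
    rw [← sub_eq_zero]
    refine hinj 1 _ ?_ ?_
    · rw [smul_sub, ← smul_comm, hP, smul_zero, sub_zero]
    · rw [map_sub, hu P (Or.inl hP), sub_self]
  have hu2 : ∀ u ∈ Dw, (∀ P ∈ ({P : N | l ^ 1 • P = 0} ∪ {R} : Set N), red (u • P) = red P) →
      e u = 0 := by
    intro u huD hu
    refine hinj 1 _ (by rw [pow_one]; exact hle u) ?_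
    rw [hR u huD, map_sub, hu R (Or.inr rfl), sub_self]
  let f : A →+ A :=
    { toFun := fun P => ⟨ψ • P.1 - P.1, A.sub_mem (by
        show l ^ 1 • (ψ • P.1) = 0
        rw [← smul_comm, show l ^ 1 • P.1 = 0 from P.2, smul_zero]) P.2⟩
      map_zero' := Subtype.ext (by
        show ψ • (0 : N) - 0 = 0
        rw [smul_zero, sub_zero])
      map_add' := fun x y => Subtype.ext (by
        show ψ • (x.1 + y.1) - (x.1 + y.1) = (ψ • x.1 - x.1) + (ψ • y.1 - y.1)
        rw [smul_add]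
        abel) }
  have hfinj : Function.Injective f := by
    rw [injective_iff_map_eq_zero]
    intro P hP
    have h1 : ψ • P.1 = P.1 := sub_eq_zero.1 (congrArg Subtype.val hP)
    apply Subtype.ext
    refine fixed_zero hl Dw ‹_› hM P.1 (by rw [← pow_one l]; exact P.2) fun t ht => ?_
    obtain ⟨k, u, -, rfl, hu⟩ := hcy t ht
    rw [mul_smul, hu1 u hu P.1 P.2]
    have h2 : ψ ∈ MulAction.stabilizer D P.1 := h1
    exact Subgroup.zpow_mem _ h2 k
  have hfsurj : Function.Surjective f := Finite.surjective_of_injective hfinj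
  obtain ⟨T, hT⟩ := hfsurj ⟨e ψ, by
    show l ^ 1 • e ψ = 0
    rw [pow_one]
    exact hle ψ⟩
  have hT' : ψ • T.1 - T.1 = e ψ := congrArg Subtype.val hT
  set e' : D → N := fun t => e t - (t • T.1 - T.1) with he'
  have hcoc : ∀ s t, e' (s * t) = e' s + s • e' t := fun s t => sub_coc he T.1 s t
  have hzero : ∀ t ∈ Dw, e' t = 0 := by
    intro t ht
    obtain ⟨k, u, huD, rfl, hu⟩ := hcy t ht
    have h1 : ψ ∈ zer e' hcoc := by
      show e ψ - (ψ • T.1 - T.1) = 0
      rw [hT', sub_self]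
    have h2 : u ∈ zer e' hcoc := by
      show e u - (u • T.1 - T.1) = 0
      rw [hu2 u huD hu, hu1 u hu T.1 T.2, sub_self, sub_self]
    exact (zer e' hcoc).mul_mem ((zer e' hcoc).zpow_mem h1 k) h2
  refine ⟨T.1, fun t => ?_⟩
  rw [← sub_eq_zero]
  show e' t = 0
  have hle' : l • e' t = 0 := by
    show l • (e t - (t • T.1 - T.1)) = 0
    have h3 : l • T.1 = 0 := by have := T.2; rw [← pow_one l]; exact this
    rw [smul_sub, smul_sub, hle, ← smul_comm, h3, smul_zero, sub_zero, sub_zero]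
  refine fixed_zero hl Dw ‹_› hM _ hle' fun h hh => ?_
  have hx' : t⁻¹ * h * t ∈ Dw := by
    have := Subgroup.Normal.conj_mem (inferInstance : Dw.Normal) h hh t⁻¹
    rwa [inv_inv] at this
  have h3 := hcoc h t
  rw [hzero h hh, zero_add] at h3
  have h4 := hcoc t (t⁻¹ * h * t)
  rw [hzero _ hx', smul_zero, add_zero] at h4
  rw [← h3, ← h4]
  congr 1
  group

/-- unramified case -/
theorem locC {l : ℕ} (hl : l.Prime) (red : N →+ N')
    (hinj : ∀ (m : ℕ) (P : N), l ^ m • P = 0 → red P = 0 → P = 0)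
    (Dw : Subgroup D)
    (hfin : ∀ m : ℕ, {P : N | l ^ m • P = 0}.Finite)
    (hdiv : ∀ P : N, ∃ Q, l • Q = P)
    (hcyc : ∀ S : Set N, S.Finite → ∃ ψ : D, ∀ t : D, ∃ (k : ℤ) (u : D), u ∈ Dw ∧ t = ψ ^ k * u ∧
      ∀ P ∈ S, red (u • P) = red P)
    (C : ℕ) (hC : ∀ m : ℕ, Nat.card {P : N // l ^ m • P = 0 ∧ ∀ t : D, t • P = P} ≤ C)
    (e : D → N) (he : ∀ s t, e (s * t) = e s + s • e t) (hle : ∀ t, l • e t = 0)
    (R : N) (hR : ∀ t ∈ Dw, e t = t • R - R) : ∃ T : N, ∀ t, e t = t • T - T := by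
  classical
  obtain ⟨m, hm⟩ : ∃ m : ℕ, C < l ^ m := ⟨C, Nat.lt_pow_self hl.one_lt⟩
  let n := m + 1
  let A : AddSubgroup N :=
    { carrier := {P | l ^ n • P = 0}
      zero_mem' := smul_zero _
      add_mem' := by
        intro x y h1 h2
        show l ^ n • (x + y) = 0
        rw [smul_add, show l ^ n • x = 0 from h1, show l ^ n • y = 0 from h2, add_zero]
      neg_mem' := by
        intro x h1
        show l ^ n • (-x) = 0
        rw [smul_neg, show l ^ n • x = 0 from h1, neg_zero] }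
  have hAfin : Finite A := (hfin n).to_subtype
  obtain ⟨ψ, hcy⟩ := hcyc ({P : N | l ^ n • P = 0} ∪ {R}) ((hfin n).union (Set.finite_singleton R))
  have hu1 : ∀ u : D, (∀ P ∈ ({P : N | l ^ n • P = 0} ∪ {R} : Set N), red (u • P) = red P) →
      ∀ P : N, l ^ n • P = 0 → u • P = P := by
    intro u hu P hP
    rw [← sub_eq_zero]
    refine hinj n _ ?_ ?_
    · rw [smul_sub, ← smul_comm, hP, smul_zero, sub_zero]
    · rw [map_sub, hu P (Or.inl hP), sub_self]
  have hu2 : ∀ u ∈ Dw, (∀ P ∈ ({P : N | l ^ n • P = 0} ∪ {R} : Set N), red (u • P) = red P) →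
      e u = 0 := by
    intro u huD hu
    refine hinj 1 _ (by rw [pow_one]; exact hle u) ?_
    rw [hR u huD, map_sub, hu R (Or.inr rfl), sub_self]
  let f : A →+ A :=
    { toFun := fun P => ⟨ψ • P.1 - P.1, A.sub_mem (by
        show l ^ n • (ψ • P.1) = 0
        rw [← smul_comm, show l ^ n • P.1 = 0 from P.2, smul_zero]) P.2⟩
      map_zero' := Subtype.ext (by
        show ψ • (0 : N) - 0 = 0
        rw [smul_zero, sub_zero])
      map_add' := fun x y => Subtype.ext (by
        show ψ • (x.1 + y.1) - (x.1 + y.1) = (ψ • x.1 - x.1) + (ψ • y.1 - y.1)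
        rw [smul_add]
        abel) }
  have hker : Nat.card f.ker ≤ C := by
    refine le_trans ?_ (hC n)
    have hf2 : Finite {P : N // l ^ n • P = 0 ∧ ∀ t : D, t • P = P} :=
      ((hfin n).subset fun P hP => hP.1).to_subtype
    refine Nat.card_le_card_of_injective (fun P : f.ker =>
      (⟨P.1.1, P.1.2, ?_⟩ : {P : N // l ^ n • P = 0 ∧ ∀ t : D, t • P = P})) ?_
    · intro t
      have h1 : ψ • P.1.1 = P.1.1 := sub_eq_zero.1 (congrArg Subtype.val P.2)
      obtain ⟨k, u, -, rfl, hu⟩ := hcy t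
      rw [mul_smul, hu1 u hu P.1.1 P.1.2]
      have h2 : ψ ∈ MulAction.stabilizer D P.1.1 := h1
      exact Subgroup.zpow_mem _ h2 k
    · intro P Q h
      apply Subtype.ext
      apply Subtype.ext
      have h3 := congrArg Subtype.val h
      exact h3
  have hcard : Nat.card (A ⧸ f.range) = Nat.card f.ker := by
    have h1 := AddSubgroup.card_eq_card_quotient_mul_card_addSubgroup f.range
    have h2 := AddSubgroup.card_eq_card_quotient_mul_card_addSubgroup f.ker
    have h3 : Nat.card (A ⧸ f.ker) = Nat.card f.range :=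
      Nat.card_congr (QuotientAddGroup.quotientKerEquivRange f).toEquiv
    rw [h3] at h2
    rw [h2, mul_comm] at h1
    exact (Nat.eq_of_mul_eq_mul_right Nat.card_pos h1).symm
  set κ := Nat.card (A ⧸ f.range) with hκ
  have hκpos : 0 < κ := Nat.card_pos
  have h1 : ∀ a : A, κ • a ∈ f.range := by
    intro a
    rw [← QuotientAddGroup.eq_zero_iff, QuotientAddGroup.mk_nsmul]
    exact card_nsmul_eq_zero'
  have h2 : ∀ a : A, (l ^ n) • a = 0 := fun a => Subtype.ext a.2
  set d := Nat.gcd κ (l ^ n) with hd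
  have h3 : ∀ a : A, d • a ∈ f.range := by
    intro a
    have hb := Nat.gcd_eq_gcd_ab κ (l ^ n)
    rw [← hd] at hb
    rw [← natCast_zsmul, hb, add_smul, mul_comm, mul_smul, mul_comm, mul_smul, natCast_zsmul,
      natCast_zsmul, h2, smul_zero, add_zero]
    exact f.range.zsmul_mem (h1 a) _
  obtain ⟨j, hj1, hj2⟩ := (Nat.dvd_prime_pow hl).1 (Nat.gcd_dvd_right κ (l ^ n))
  have hj3 : l ^ j < l ^ m := by
    rw [← hj2]
    refine lt_of_le_of_lt (Nat.le_of_dvd hκpos (Nat.gcd_dvd_left _ _)) ?_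
    rw [hcard]
    exact lt_of_le_of_lt hker hm
  have hjm : j ≤ m := le_of_lt ((Nat.pow_lt_pow_iff_right hl.one_lt).1 hj3)
  have h4 : ∀ a : A, (l ^ m) • a ∈ f.range := by
    intro a
    obtain ⟨i, rfl⟩ := Nat.exists_eq_add_of_le hjm
    rw [pow_add, mul_comm, mul_smul, ← hj2]
    exact f.range.nsmul_mem (h3 a) _
  have hdiv2 : ∀ (i : ℕ) (P : N), ∃ Q, l ^ i • Q = P := by
    intro i
    induction i with
    | zero => exact fun P => ⟨P, by rw [pow_zero, one_smul]⟩
    | succ i ih =>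
      intro P
      obtain ⟨Q, hQ⟩ := ih P
      obtain ⟨Q', hQ'⟩ := hdiv Q
      exact ⟨Q', by rw [pow_succ, mul_smul, hQ', hQ]⟩
  obtain ⟨S, hS⟩ := hdiv2 m (e ψ)
  have hSA : l ^ n • S = 0 := by
    show l ^ (m + 1) • S = 0
    rw [pow_succ', mul_smul, hS, hle]
  obtain ⟨T, hT⟩ := h4 ⟨S, hSA⟩
  have hT' : ψ • T.1 - T.1 = e ψ := (congrArg Subtype.val hT).trans hS
  set e' : D → N := fun t => e t - (t • T.1 - T.1) with he'
  have hcoc : ∀ s t, e' (s * t) = e' s + s • e' t := fun s t => sub_coc he T.1 s t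
  refine ⟨T.1, fun t => ?_⟩
  rw [← sub_eq_zero]
  obtain ⟨k, u, huD, rfl, hu⟩ := hcy t
  have h5 : ψ ∈ zer e' hcoc := by
    show e ψ - (ψ • T.1 - T.1) = 0
    rw [hT', sub_self]
  have h6 : u ∈ zer e' hcoc := by
    show e u - (u • T.1 - T.1) = 0
    rw [hu2 u huD hu, hu1 u hu T.1 T.2, sub_self, sub_self]
  exact (zer e' hcoc).mul_mem ((zer e' hcoc).zpow_mem h5 k) h6

end

end Pool.Agent.R901.LD
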