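import Pool.Agent.W94.F3.Local
import Pool.Agent.H901R3.MS.Defs

/-!
# The residue field of an algebraic closure of `ℚ_p`, and the action of the Galois group
-/

set_option autoImplicit false

namespace Pool.Agent.R901.LD

open Pool.Agent.W94.F3 (Cp Gp norm_gal norm_add_lt norm_add_le' norm_sub_lt norm_sub_le')
open Pool.Agent.H901R3.MS (Place)
open Polynomial

section
variable (p : ℕ) [hp : Fact p.Prime]

/-- the elements of norm at most one -/
def Oc : Subring (Cp p) where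
  carrier := {x | ‖x‖ ≤ 1}
  mul_mem' := by
    intro x y hx hy
    show ‖x * y‖ ≤ 1
    rw [norm_mul]
    exact mul_le_one₀ hx (norm_nonneg _) hy
  one_mem' := by
    show ‖(1 : Cp p)‖ ≤ 1
    rw [norm_one]
  add_mem' := fun hx hy => norm_add_le' hx hy
  zero_mem' := by
    show ‖(0 : Cp p)‖ ≤ 1
    rw [norm_zero]
    exact zero_le_one
  neg_mem' := by
    intro x hx
    show ‖-x‖ ≤ 1
    rw [norm_neg]
    exact hx

theorem mem_Oc {x : Cp p} : x ∈ Oc p ↔ ‖x‖ ≤ 1 := Iff.rfl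

/-- the elements of norm less than one -/
def mc : Ideal (Oc p) where
  carrier := {x | ‖x.1‖ < 1}
  add_mem' := fun hx hy => norm_add_lt hx hy
  zero_mem' := by
    show ‖(0 : Cp p)‖ < 1
    rw [norm_zero]
    exact zero_lt_one
  smul_mem' := by
    intro c x hx
    show ‖c.1 * x.1‖ < 1
    rw [norm_mul]
    exact lt_of_le_of_lt (mul_le_of_le_one_left (norm_nonneg _) c.2) hx

theorem mem_mc {x : Oc p} : x ∈ mc p ↔ ‖x.1‖ < 1 := Iff.rfl

theorem unit_of {x : Oc p} (h : x ∉ mc p) : ‖x.1‖ = 1 ∧ (x.1)⁻¹ ∈ Oc p ∧ x.1 ≠ 0 := by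
  have h1 : ‖x.1‖ = 1 := le_antisymm x.2 (not_lt.1 h)
  refine ⟨h1, ?_, ?_⟩
  · rw [mem_Oc, norm_inv, h1, inv_one]
  · intro h0
    rw [h0, norm_zero] at h1
    exact zero_ne_one h1

instance mc_max : (mc p).IsMaximal := by
  rw [Ideal.isMaximal_iff]
  constructor
  · rw [mem_mc]
    show ¬ ‖(1 : Cp p)‖ < 1
    rw [norm_one]
    exact lt_irrefl _
  · intro J x _ hx hxJ
    obtain ⟨h1, h2, h3⟩ := unit_of p hx
    have : (1 : Oc p) = ⟨x.1⁻¹, h2⟩ * x := Subtype.ext (inv_mul_cancel₀ h3).symm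
    rw [this]
    exact J.mul_mem_left _ hxJ

/-- the residue field -/
abbrev Kc : Type := Oc p ⧸ mc p

noncomputable instance : Field (Kc p) := Ideal.Quotient.field (mc p)

/-- the place -/
noncomputable def plc : Place (Cp p) (Kc p) where
  A := Oc p
  ρ := Ideal.Quotient.mk (mc p)
  inv_of_notMem := by
    intro x hx
    rw [mem_Oc, not_le] at hx
    have h : ‖x⁻¹‖ < 1 := by
      rw [norm_inv]
      exact inv_lt_one_of_one_lt₀ hx
    refine ⟨h.le, ?_⟩
    rw [Ideal.Quotient.eq_zero_iff_mem, mem_mc]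
    exact h
  inv_of_ne := by
    intro x hx
    rw [Ne, Ideal.Quotient.eq_zero_iff_mem] at hx
    exact (unit_of p hx).2.1

theorem plc_r {x : Cp p} (h : ‖x‖ ≤ 1) :
    (plc p).r x = Ideal.Quotient.mk (mc p) ⟨x, h⟩ := (plc p).r_of h

theorem plc_mem {x : Cp p} : x ∈ (plc p).A ↔ ‖x‖ ≤ 1 := Iff.rfl

theorem plc_r_eq {x y : Cp p} (hx : ‖x‖ ≤ 1) (hy : ‖y‖ ≤ 1) :
    (plc p).r x = (plc p).r y ↔ ‖x - y‖ < 1 := by
  rw [plc_r p hx, plc_r p hy, Ideal.Quotient.eq, mem_mc]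
  rfl

instance charP_Kc : CharP (Kc p) p := by
  rw [CharP.charP_iff_prime_eq_zero hp.1]
  have h : ((p : Oc p) : Kc p) = 0 := by
    rw [Ideal.Quotient.eq_zero_iff_mem, mem_mc]
    have h1 := Pool.Agent.W94.F3.norm_p (p := p)
    have h2 : (((p : ℤ) : Cp p)) = ((p : Oc p) : Cp p) := by push_cast; rfl
    rw [← h2, h1]
    exact inv_lt_one_of_one_lt₀ Pool.Agent.W94.F3.one_lt_p
  rw [← h]
  simp

noncomputable instance : Algebra (ZMod p) (Kc p) := ZMod.algebra _ p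

/-- `ℤ_p` inside -/
noncomputable def zp : ℤ_[p] →+* Oc p where
  toFun z := ⟨algebraMap ℚ_[p] (Cp p) z, by
    rw [mem_Oc]
    exact (PadicAlgCl.norm_extends p (z : ℚ_[p])).le.trans z.2⟩
  map_one' := Subtype.ext (by simp)
  map_zero' := Subtype.ext (by simp)
  map_mul' := fun x y => Subtype.ext (by simp)
  map_add' := fun x y => Subtype.ext (by simp)

theorem zp_mem {z : ℤ_[p]} (h : z ∈ IsLocalRing.maximalIdeal ℤ_[p]) : zp p z ∈ mc p := by
  rw [mem_mc]
  show ‖algebraMap ℚ_[p] (Cp p) z‖ < 1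
  refine lt_of_eq_of_lt (PadicAlgCl.norm_extends p (z : ℚ_[p])) ?_
  have := PadicInt.mem_nonunits.1 ((IsLocalRing.mem_maximalIdeal _).1 h)
  exact this

theorem zp_fac : (Ideal.Quotient.mk (mc p)).comp (zp p) =
    (algebraMap (ZMod p) (Kc p)).comp PadicInt.toZMod := by
  ext z
  obtain ⟨n, -, hn⟩ := PadicInt.exists_mem_range z
  have h1 : (Ideal.Quotient.mk (mc p)) (zp p z) = (n : Kc p) := by
    have h2 := zp_mem p hn
    rw [map_sub, map_natCast, ← Ideal.Quotient.eq_zero_iff_mem, map_sub, map_natCast,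
      sub_eq_zero] at h2
    exact h2
  have h3 : PadicInt.toZMod z = (n : ZMod p) := by
    have h4 : z - n ∈ RingHom.ker (PadicInt.toZMod (p := p)) := by
      rw [PadicInt.ker_toZMod]
      exact hn
    rw [RingHom.mem_ker, map_sub, map_natCast, sub_eq_zero] at h4
    exact h4
  rw [RingHom.comp_apply, RingHom.comp_apply, h1, h3, map_natCast]

theorem isInt_Oc (x : Oc p) : (zp p).IsIntegralElem x := by
  have hint : IsIntegral ℚ_[p] x.1 := Algebra.IsIntegral.isIntegral x.1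
  have hm := minpoly.monic hint
  have hs : spectralValue (minpoly ℚ_[p] x.1) ≤ 1 := x.2
  have hc := (spectralValue_le_one_iff hm).1 hs
  have hl : minpoly ℚ_[p] x.1 ∈ Polynomial.lifts (algebraMap ℤ_[p] ℚ_[p]) := by
    rw [Polynomial.lifts_iff_coeff_lifts]
    intro n
    exact ⟨⟨_, hc n⟩, rfl⟩
  obtain ⟨Q, hQ1, -, hQ2⟩ := Polynomial.lifts_and_natDegree_eq_and_monic hl hm
  refine ⟨Q, hQ2, ?_⟩
  apply Subtype.ext
  have h1 : (algebraMap ℚ_[p] (Cp p)).comp (algebraMap ℤ_[p] ℚ_[p]) =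
      (Oc p).subtype.comp (zp p) := by
    ext z
    rfl
  have h2 : Polynomial.eval₂ (algebraMap ℚ_[p] (Cp p)) x.1 (minpoly ℚ_[p] x.1) = 0 :=
    minpoly.aeval ℚ_[p] x.1
  rw [← hQ1, Polynomial.eval₂_map, h1] at h2
  have h3 := Polynomial.hom_eval₂ Q (zp p) (Oc p).subtype x
  exact h3.trans h2

theorem isInt_Kc (x : Kc p) : IsIntegral (ZMod p) x := by
  obtain ⟨a, rfl⟩ := Ideal.Quotient.mk_surjective x
  obtain ⟨Q, hQ1, hQ2⟩ := isInt_Oc p a
  have h1 : ((Ideal.Quotient.mk (mc p)).comp (zp p)).IsIntegralElem (Ideal.Quotient.mk (mc p) a) := by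
    refine ⟨Q, hQ1, ?_⟩
    rw [← Polynomial.hom_eval₂, hQ2, map_zero]
  rw [zp_fac] at h1
  exact h1.of_comp

variable {p}

/-- the action on the integers -/
noncomputable def gO (t : Gp p) : Oc p →+* Oc p where
  toFun x := ⟨t x.1, by rw [mem_Oc, norm_gal]; exact x.2⟩
  map_one' := Subtype.ext (map_one t)
  map_zero' := Subtype.ext (map_zero t)
  map_mul' := fun x y => Subtype.ext (map_mul t x.1 y.1)
  map_add' := fun x y => Subtype.ext (map_add t x.1 y.1)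

/-- the action on the residue field -/
noncomputable def gK (t : Gp p) : Kc p →+* Kc p :=
  Ideal.quotientMap (mc p) (gO t) (by
    intro x hx
    rw [Ideal.mem_comap, mem_mc]
    show ‖t x.1‖ < 1
    rw [norm_gal]
    exact hx)

theorem gK_mk (t : Gp p) (x : Oc p) :
    gK t (Ideal.Quotient.mk (mc p) x) = Ideal.Quotient.mk (mc p) (gO t x) := Ideal.quotientMap_mk

theorem gK_mul (s t : Gp p) (x : Kc p) : gK (s * t) x = gK s (gK t x) := by
  obtain ⟨a, rfl⟩ := Ideal.Quotient.mk_surjective x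
  rw [gK_mk, gK_mk, gK_mk]
  rfl

theorem gK_one (x : Kc p) : gK (1 : Gp p) x = x := by
  obtain ⟨a, rfl⟩ := Ideal.Quotient.mk_surjective x
  rw [gK_mk]
  rfl

/-- the action on the residue field -/
noncomputable def gE : Gp p →* (Kc p ≃ₐ[ZMod p] Kc p) where
  toFun t := AlgEquiv.ofRingEquiv (f := RingEquiv.ofRingHom (gK t) (gK t⁻¹)
    (RingHom.ext fun x => by
      show gK t (gK t⁻¹ x) = x
      rw [← gK_mul, mul_inv_cancel, gK_one])
    (RingHom.ext fun x => by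
      show gK t⁻¹ (gK t x) = x
      rw [← gK_mul, inv_mul_cancel, gK_one]))
    (fun x => by
      show gK t (algebraMap (ZMod p) (Kc p) x) = algebraMap (ZMod p) (Kc p) x
      exact RingHom.congr_fun (RingHom.ext_zmod ((gK t).comp (algebraMap (ZMod p) (Kc p)))
        (algebraMap (ZMod p) (Kc p))) x)
  map_one' := by
    apply AlgEquiv.ext
    intro x
    exact gK_one x
  map_mul' s t := by
    apply AlgEquiv.ext
    intro x
    exact gK_mul s t x

theorem gE_apply (t : Gp p) (x : Kc p) : gE t x = gK t x := rfl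

/-- **the action on finitely many residues is cyclic** -/
theorem cyc (D : Subgroup (Gp p)) (S : Set (Cp p)) (hS : S.Finite) :
    ∃ ψ ∈ D, ∀ t ∈ D, ∃ (k : ℤ) (u : Gp p), u ∈ D ∧ t = ψ ^ k * u ∧
      ∀ x ∈ S, ‖x‖ ≤ 1 → ‖u x - x‖ < 1 := by
  classical
  let T : Set (Kc p) := {y | ∃ x ∈ S, ∃ h : ‖x‖ ≤ 1, y = Ideal.Quotient.mk (mc p) ⟨x, h⟩}
  have hT : T.Finite := by
    refine (hS.image fun x => (plc p).r x).subset ?_
    rintro y ⟨x, hx, h, rfl⟩
    exact ⟨x, hx, plc_r p h⟩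
  let k0 : IntermediateField (ZMod p) (Kc p) := IntermediateField.adjoin (ZMod p) T
  have hTf : Finite T := hT.to_subtype
  have hfd : FiniteDimensional (ZMod p) k0 :=
    IntermediateField.finiteDimensional_adjoin fun x _ => isInt_Kc p x
  have hfin : Finite k0 := Module.finite_of_finite (ZMod p)
  let θ : Gp p →* (k0 ≃ₐ[ZMod p] k0) := (AlgEquiv.restrictNormalHom k0).comp gE
  have hcyc : IsCyclic (D.map θ) := inferInstance
  obtain ⟨⟨g, hg⟩, hgen⟩ := hcyc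
  obtain ⟨ψ, hψ, rfl⟩ := hg
  refine ⟨ψ, hψ, fun t ht => ?_⟩
  obtain ⟨k, hk⟩ := hgen ⟨θ t, ⟨t, ht, rfl⟩⟩
  have hk' : (θ ψ) ^ k = θ t := congrArg Subtype.val hk
  refine ⟨k, (ψ ^ k)⁻¹ * t, D.mul_mem (D.inv_mem (D.zpow_mem hψ k)) ht, by group, ?_⟩
  intro x hx hx1
  have h1 : θ ((ψ ^ k)⁻¹ * t) = 1 := by
    rw [map_mul, map_inv, map_zpow, hk', inv_mul_cancel]
  have hxT : (Ideal.Quotient.mk (mc p) ⟨x, hx1⟩ : Kc p) ∈ k0 :=
    IntermediateField.subset_adjoin _ _ ⟨x, hx, hx1, rfl⟩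
  have h2 := AlgEquiv.restrictNormal_commutes (gE ((ψ ^ k)⁻¹ * t)) k0
    ⟨Ideal.Quotient.mk (mc p) ⟨x, hx1⟩, hxT⟩
  have h3 : (gE ((ψ ^ k)⁻¹ * t)).restrictNormal k0 = 1 := h1
  rw [h3] at h2
  have h4 : (Ideal.Quotient.mk (mc p) ⟨x, hx1⟩ : Kc p) =
      gK ((ψ ^ k)⁻¹ * t) (Ideal.Quotient.mk (mc p) ⟨x, hx1⟩) := h2
  rw [gK_mk, eq_comm, Ideal.Quotient.eq, mem_mc] at h4
  exact h4

end

end Pool.Agent.R901.LD
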