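import Pool.Agent.R901.LD.Cur
import Pool.Agent.R901.LD.Res
import Pool.Agent.R901.LD.Loc
import Pool.Agent.R942.ES.Curves

/-!
# Cocycles at a prime of good reduction
-/

set_option autoImplicit false

namespace Pool.Agent.R901.LD

open WeierstrassCurve
open Pool.Agent.W94.F3 (Cp Gp norm_gal fixed_mem residue_fixed norm_int_lt_iff norm_int_le
  norm_sub_lt norm_add_lt)
open Pool.Agent.H901R3.MS (CV Disc Place Eqn)

attribute [local instance] Classical.decEq

theorem disc_of {a b : ℤ} {p : ℕ} (hgood : ¬ (p : ℤ) ∣ 2 * (4 * a ^ 3 + 27 * b ^ 2)) (k : Type)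
    [Field k] [CharP k p] : Disc (a : k) (b : k) := by
  unfold Disc
  have h : ((2 * (4 * a ^ 3 + 27 * b ^ 2) : ℤ) : k) ≠ 0 := by
    rw [Ne, CharP.intCast_eq_zero_iff k p]
    exact hgood
  push_cast at h
  exact h

section
variable {a b : ℤ} {p : ℕ} [hp : Fact p.Prime] [iA : Algebra ℚ (Cp p)]
  [iT : IsScalarTower ℚ ℚ_[p] (Cp p)]

theorem exists_redP (hgood : ¬ (p : ℤ) ∣ 2 * (4 * a ^ 3 + 27 * b ^ 2)) :
    ∃ red : SP a b (Cp p) →+ Pool.Agent.H901R3.MS.Pt (a : Kc p) (b : Kc p),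
      (∀ (x y : Cp p) h, ¬ ‖x‖ ≤ 1 → red (mkp x y h) = 0) ∧
      (∀ (x y : Cp p) h, ‖x‖ ≤ 1 → ‖y‖ ≤ 1 ∧ ∃ g,
        red (mkp x y h) =
          Affine.Point.some ((plc p).r x) ((plc p).r y) g) := by
  obtain ⟨red, -, h2, h3⟩ := Pool.Agent.Y213.EC.exists_red (plc p) (a := (a : Cp p))
    (b := (b : Cp p)) (a' := (a : Kc p)) (b' := (b : Kc p)) ((plc p).int_mem a)
    ((plc p).int_mem b) ((plc p).r_int a) ((plc p).r_int b) (disc_of hgood (Kc p))
  refine ⟨red.comp (iso a b (Cp p)).toAddMonoidHom, ?_, ?_⟩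
  · intro x y h hx
    obtain ⟨h', e⟩ := iso_some x y h
    show red (iso a b (Cp p) (mkp x y h)) = 0
    rw [e]
    exact h2 x y h' hx
  · intro x y h hx
    obtain ⟨h', e⟩ := iso_some x y h
    obtain ⟨h4, g, h5⟩ := h3 x y h' hx
    refine ⟨h4, g, ?_⟩
    show red (iso a b (Cp p) (mkp x y h)) = _
    rw [e]
    exact h5

/-- torsion points prime to `p` are integral -/
theorem int_of_tor {n : ℕ} (hn : ¬ p ∣ n) (x y : Cp p)
    (h : ((EW a b).baseChange (Cp p)).toAffine.Nonsingular x y)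
    (ht : n • (mkp x y h) = 0) : ‖x‖ ≤ 1 ∧ ‖y‖ ≤ 1 := by
  obtain ⟨h', e⟩ := iso_some x y h
  refine Pool.Agent.W275.FM.ni (Cp p) (Kc p) (plc p) a b n ?_ x y h' ?_
  · rw [Ne, CharP.cast_eq_zero_iff (Kc p) p]
    exact hn
  · rw [← e, ← map_nsmul, ht, map_zero]

end

/-- the local theorem -/
theorem local_good {a b : ℤ} {p : ℕ} [hp : Fact p.Prime] [iA : Algebra ℚ (Cp p)]
    [iT : IsScalarTower ℚ ℚ_[p] (Cp p)] {l : ℕ} (hl : l.Prime)
    (hgood : ¬ (p : ℤ) ∣ 2 * (4 * a ^ 3 + 27 * b ^ 2)) (hpl : p ≠ l)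
    (Dw : Subgroup (Gp p)) [Dw.Normal] [Finite (Gp p ⧸ Dw)] (hP : IsPGroup l (Gp p ⧸ Dw))
    (hcase : ¬ l ∣ Nat.card {v : ZMod p × ZMod p // v.2 ^ 2 = v.1 ^ 3 + (a : ZMod p) * v.1 + b} + 1 ∨
      ∃ S : Set (Cp p), S.Finite ∧ (∀ x ∈ S, ‖x‖ ≤ 1) ∧ ∀ u : Gp p, (∀ x ∈ S, ‖u x - x‖ < 1) → u ∈ Dw)
    (e : Gp p → SP a b (Cp p)) (he : ∀ s t, e (s * t) = e s + s • e t) (hle : ∀ t, l • e t = 0)
    (R : SP a b (Cp p)) (hR : ∀ t ∈ Dw, e t = t • R - R) :
    ∃ T : SP a b (Cp p), ∀ t, e t = t • T - T := by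
  classical
  have hd : 4 * a ^ 3 + 27 * b ^ 2 ≠ 0 := by
    intro h
    apply hgood
    rw [h, mul_zero]
    exact dvd_zero _
  have hpl' : ∀ m : ℕ, ¬ p ∣ l ^ m := by
    intro m h
    exact hpl ((Nat.prime_dvd_prime_iff_eq hp.1 hl).1 (hp.1.dvd_of_dvd_pow h))
  obtain ⟨red, hr1, hr2⟩ := exists_redP (a := a) (b := b) (p := p) hgood
  -- reduction of points
  have hinj : ∀ (m : ℕ) (P : SP a b (Cp p)), l ^ m • P = 0 → red P = 0 → P = 0 := by
    intro m P h1 h2
    rcases cases P with rfl | ⟨x, y, h, rfl⟩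
    · rfl
    · exfalso
      obtain ⟨h3, h4⟩ := int_of_tor (hpl' m) x y h h1
      obtain ⟨-, g, h5⟩ := hr2 x y h h3
      rw [h5] at h2
      exact absurd h2 (by simp)
  have hfin : ∀ m : ℕ, {P : SP a b (Cp p) | l ^ m • P = 0}.Finite := fun m =>
    fin_tor hd (Nat.one_le_pow _ _ hl.pos)
  -- coordinates
  let co : SP a b (Cp p) → Set (Cp p) := fun P => {z | ∃ x y h,
    P = (mkp x y h) ∧ (z = x ∨ z = y)}
  have hcofin : ∀ P, (co P).Finite := by
    intro P
    rcases cases P with rfl | ⟨x, y, h, rfl⟩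
    · refine Set.finite_empty.subset ?_
      rintro z ⟨x, y, h, h1, -⟩
      exact absurd h1.symm mkp_ne
    · refine (Set.toFinite {x, y}).subset ?_
      rintro z ⟨x', y', h', h1, h2⟩
      have h3 : x = x' ∧ y = y' := mkp_inj h1
      rcases h2 with h2 | h2
      · rw [h2, ← h3.1]
        exact Or.inl rfl
      · rw [h2, ← h3.2]
        exact Or.inr rfl
  have hredu : ∀ (u : Gp p) (P : SP a b (Cp p)), (∀ z ∈ co P, ‖z‖ ≤ 1 → ‖u z - z‖ < 1) →
      red (u • P) = red P := by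
    intro u P hu
    rcases cases P with rfl | ⟨x, y, h, rfl⟩
    · rw [smul_zero]
    · obtain ⟨h', e1⟩ := smul_some u x y h
      rw [e1]
      by_cases hx : ‖x‖ ≤ 1
      · obtain ⟨hy, g, h5⟩ := hr2 x y h hx
        have hux : ‖u x‖ ≤ 1 := by rw [norm_gal]; exact hx
        have huy : ‖u y‖ ≤ 1 := by rw [norm_gal]; exact hy
        obtain ⟨-, g', h6⟩ := hr2 (u x) (u y) h' hux
        have h7 := (plc_r_eq p hux hx).2 (hu x ⟨x, y, h, rfl, Or.inl rfl⟩ hx)
        have h8 := (plc_r_eq p huy hy).2 (hu y ⟨x, y, h, rfl, Or.inr rfl⟩ hy)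
        rw [h5, h6]
        congr 1
      · rw [hr1 x y h hx, hr1 (u x) (u y) h' (by rw [norm_gal]; exact hx)]
  have hfix : ∀ c : Cp p, (∀ t : Gp p, t c = c) → ‖c‖ ≤ 1 → ∃ n : ℤ, (plc p).r c = (n : Kc p) := by
    intro c hc h1
    obtain ⟨n, hn⟩ := residue_fixed hc h1
    refine ⟨n, ?_⟩
    rw [← (plc p).r_int n, plc_r_eq p h1 (norm_int_le n)]
    exact hn
  have hfixc : ∀ (P : SP a b (Cp p)), (∀ t : Gp p, t • P = P) → ∀ x y h,
      P = (mkp x y h) → (∀ t : Gp p, t x = x) ∧ ∀ t : Gp p, t y = y := by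
    rintro P hP x y h rfl
    have key : ∀ t : Gp p, t x = x ∧ t y = y := by
      intro t
      have h1 := hP t
      obtain ⟨h', e1⟩ := smul_some t x y h
      rw [e1] at h1
      exact mkp_inj h1
    exact ⟨fun t => (key t).1, fun t => (key t).2⟩
  rcases hcase with hnl | ⟨S, hS, hS1, hS2⟩
  · -- no `l`-torsion over `F_p`
    refine locB hl red hinj Dw hP hfin ?_ ?_ e he hle R hR
    · intro Q0 hQ0
      obtain ⟨ψ, hψ, hcy⟩ := cyc Dw (⋃ P ∈ Q0, co P) (hQ0.biUnion fun P _ => hcofin P)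
      refine ⟨ψ, hψ, fun t ht => ?_⟩
      obtain ⟨k, u, hu, h1, h2⟩ := hcy t ht
      exact ⟨k, u, hu, h1, fun P hP => hredu u P fun z hz => h2 z (Set.mem_biUnion hP hz)⟩
    · intro T hT hfixT
      by_contra hne
      apply hnl
      rcases cases T with rfl | ⟨x, y, h, rfl⟩
      · exact absurd rfl hne
      · obtain ⟨hx1, hy1⟩ := hfixc _ hfixT x y h rfl
        obtain ⟨h3, h4⟩ := int_of_tor (n := l) (by simpa using hpl' 1) x y h hT
        obtain ⟨-, g, h5⟩ := hr2 x y h h3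
        obtain ⟨nx, hnx⟩ := hfix x hx1 h3
        obtain ⟨ny, hny⟩ := hfix y hy1 h4
        have hDk : Disc (a : ZMod p) (b : ZMod p) := disc_of hgood (ZMod p)
        obtain ⟨j, hj⟩ := Pool.Agent.Y213.EC.exists_map (algebraMap (ZMod p) (Kc p))
          (a := (a : ZMod p)) (b := (b : ZMod p)) (a' := (a : Kc p)) (b' := (b : Kc p))
          (map_intCast _ _) (map_intCast _ _) (disc_of hgood (Kc p))
        have hjinj := Pool.Agent.Y213.EC.map_inj (algebraMap (ZMod p) (Kc p)) j hj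
        have hE : Eqn (a : ZMod p) (b : ZMod p) (nx : ZMod p) (ny : ZMod p) := by
          have h6 := Pool.Agent.H901R3.MS.eqn_of g
          rw [hnx, hny] at h6
          unfold Eqn at h6 ⊢
          apply (algebraMap (ZMod p) (Kc p)).injective
          simpa using h6
        have hns := (Pool.Agent.H901R3.MS.nonsingular_iff hDk).2 hE
        obtain ⟨g', h7⟩ := hj _ _ hns
        have h8 : j (Affine.Point.some _ _ hns) =
            red (mkp x y h) := by
          rw [h7, h5]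
          congr 1
          · rw [hnx, map_intCast]
          · rw [hny, map_intCast]
        have h9 : l • (Affine.Point.some _ _ hns : Pool.Agent.H901R3.MS.Pt (a : ZMod p) (b : ZMod p))
            = 0 := by
          apply hjinj
          rw [map_nsmul, h8, ← map_nsmul, hT, map_zero, map_zero]
        have : Fact l.Prime := ⟨hl⟩
        have hΔ : (CV (a : ZMod p) (b : ZMod p)).Δ ≠ 0 := by
          have e1 : (CV (a : ZMod p) (b : ZMod p)).Δ =
              -8 * (2 * (4 * (a : ZMod p) ^ 3 + 27 * (b : ZMod p) ^ 2)) := by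
            simp only [CV, WeierstrassCurve.Δ, WeierstrassCurve.b₂, WeierstrassCurve.b₄,
              WeierstrassCurve.b₆, WeierstrassCurve.b₈]
            ring
          rw [e1]
          have h20 : (2 : ZMod p) ≠ 0 := left_ne_zero_of_mul hDk
          refine mul_ne_zero ?_ hDk
          have : (-8 : ZMod p) = -(2 ^ 3) := by norm_num
          rw [this]
          exact neg_ne_zero.2 (pow_ne_zero 3 h20)
        have h10 := Pool.Agent.R942.ES.cnt_good (ℓ := l) hΔ (Affine.Point.some _ _ hns)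
          (by intro h0; cases h0) h9
        have h11 : Pool.Agent.R942.ES.cnt (CV (a : ZMod p) (b : ZMod p)) =
            Nat.card {v : ZMod p × ZMod p // v.2 ^ 2 = v.1 ^ 3 + (a : ZMod p) * v.1 + b} := by
          unfold Pool.Agent.R942.ES.cnt
          apply Nat.card_congr
          exact Equiv.subtypeEquivRight fun v => Pool.Agent.H901R3.MS.equation_iff
        rw [h11] at h10
        exact h10
  · -- unramified
    refine locC hl red hinj Dw hfin (fun P => exists_div hd hl.pos P) ?_ (p * p + 1) ?_ e he hle R hR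
    · intro Q0 hQ0
      obtain ⟨ψ, -, hcy⟩ := cyc (⊤ : Subgroup (Gp p)) ((⋃ P ∈ Q0, co P) ∪ S)
        ((hQ0.biUnion fun P _ => hcofin P).union hS)
      refine ⟨ψ, fun t => ?_⟩
      obtain ⟨k, u, -, h1, h2⟩ := hcy t (Subgroup.mem_top t)
      refine ⟨k, u, hS2 u fun x hx => h2 x (Or.inr hx) (hS1 x hx), h1, fun P hP => ?_⟩
      exact hredu u P fun z hz => h2 z (Or.inl (Set.mem_biUnion hP hz))
    · intro m
      -- the bound for the number of fixed points
      have hch : ∀ P : {P : SP a b (Cp p) // l ^ m • P = 0 ∧ ∀ t : Gp p, t • P = P},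
          ∃ w : Option (ZMod p × ZMod p), (w = none → P.1 = 0) ∧ ∀ nx ny, w = some (nx, ny) →
            ∃ x y h, P.1 = (mkp x y h) ∧ ‖x‖ ≤ 1 ∧ ‖y‖ ≤ 1 ∧
              (plc p).r x = algebraMap (ZMod p) (Kc p) nx ∧
              (plc p).r y = algebraMap (ZMod p) (Kc p) ny := by
        rintro ⟨P, hP1, hP2⟩
        rcases cases P with rfl | ⟨x, y, h, rfl⟩
        · exact ⟨none, fun _ => rfl, fun _ _ h => (by cases h)⟩
        · obtain ⟨hx1, hy1⟩ := hfixc _ hP2 x y h rfl
          obtain ⟨h3, h4⟩ := int_of_tor (hpl' m) x y h hP1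
          obtain ⟨nx, hnx⟩ := hfix x hx1 h3
          obtain ⟨ny, hny⟩ := hfix y hy1 h4
          refine ⟨some ((nx : ZMod p), (ny : ZMod p)), fun h => (by cases h), fun nx' ny' h6 => ?_⟩
          rw [Option.some.injEq, Prod.mk.injEq] at h6
          refine ⟨x, y, h, rfl, h3, h4, ?_, ?_⟩
          · rw [hnx, ← h6.1, map_intCast]
          · rw [hny, ← h6.2, map_intCast]
      choose w hw1 hw2 using hch
      have hcardO : Nat.card (Option (ZMod p × ZMod p)) = p * p + 1 := by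
        rw [Finite.card_option, Nat.card_prod, Nat.card_zmod]
      rw [← hcardO]
      refine Nat.card_le_card_of_injective w ?_
      intro P P' hPP
      apply Subtype.ext
      rcases hwP : w P with _ | ⟨nx, ny⟩
      · rw [hw1 P hwP, hw1 P' (by rw [← hPP, hwP])]
      · obtain ⟨x, y, h, e1, h1, h2, h3, h4⟩ := hw2 P nx ny hwP
        obtain ⟨x', y', h', e1', h1', h2', h3', h4'⟩ := hw2 P' nx ny (by rw [← hPP, hwP])
        rw [← sub_eq_zero]
        refine hinj m _ ?_ ?_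
        · rw [smul_sub, P.2.1, P'.2.1, sub_zero]
        · rw [map_sub, sub_eq_zero, e1, e1']
          obtain ⟨-, g, h5⟩ := hr2 x y h h1
          obtain ⟨-, g', h5'⟩ := hr2 x' y' h' h1'
          rw [h5, h5']
          congr 1
          · rw [h3, h3']
          · rw [h4, h4']

end Pool.Agent.R901.LD
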