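import Pool.Agent.R901.LD.Pts
import Pool.Agent.TH841.NF.Plc

/-!
# Number fields unramified at `p`, and number fields in which `p` splits completely
-/

set_option autoImplicit false

namespace Pool.Agent.R901.LD

open NumberField IsDedekindDomain
open Pool.Agent.W94.F3 (Cp Gp norm_gal norm_add_lt norm_add_le' norm_sub_lt norm_sub_le')
open Pool.Agent.TH841.NF (pls norm_int norm_le_one_of_val mem_pid)

section
variable {p : ℕ} [hp : Fact p.Prime]

theorem pow_sub_le {a b : Cp p} (ha : ‖a‖ ≤ 1) (hb : ‖b‖ ≤ 1) (n : ℕ) :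
    ‖a ^ n - b ^ n‖ ≤ ‖a - b‖ := by
  induction n with
  | zero =>
    rw [pow_zero, pow_zero, sub_self, norm_zero]
    exact norm_nonneg _
  | succ n ih =>
    have e : a ^ (n + 1) - b ^ (n + 1) = a * (a ^ n - b ^ n) + (a - b) * b ^ n := by ring
    rw [e]
    refine norm_add_le' ?_ ?_
    · rw [norm_mul]
      exact (mul_le_of_le_one_left (norm_nonneg _) ha).trans ih
    · rw [norm_mul, norm_pow]
      exact mul_le_of_le_one_right (norm_nonneg _) (pow_le_one₀ (norm_nonneg _) hb)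

theorem pow_sub_le' {a b : Cp p} (ha : ‖a‖ ≤ 1) (hb : ‖b‖ ≤ 1) {c : ℝ} (hc : ‖a - b‖ ≤ c) {q : ℕ}
    (hq : ‖(q : Cp p)‖ ≤ c) : ‖a ^ q - b ^ q‖ ≤ c * ‖a - b‖ := by
  have hc0 : 0 ≤ c := (norm_nonneg _).trans hc
  have e : a ^ q - b ^ q = (∑ i ∈ Finset.range q, a ^ i * b ^ (q - 1 - i)) * (a - b) :=
    (Commute.all a b).geom_sum₂_mul q |>.symm
  rw [e, norm_mul]
  refine mul_le_mul_of_nonneg_right ?_ (norm_nonneg _)
  have e2 : ∑ i ∈ Finset.range q, a ^ i * b ^ (q - 1 - i) =
      (q : Cp p) * b ^ (q - 1) + ∑ i ∈ Finset.range q, b ^ (q - 1 - i) * (a ^ i - b ^ i) := by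
    have e3 : (q : Cp p) * b ^ (q - 1) = ∑ _i ∈ Finset.range q, b ^ (q - 1) := by
      rw [Finset.sum_const, Finset.card_range, nsmul_eq_mul]
    rw [e3, ← Finset.sum_add_distrib]
    refine Finset.sum_congr rfl fun i hi => ?_
    have h : q - 1 = (q - 1 - i) + i := by
      have := Finset.mem_range.1 hi
      omega
    have h2 : b ^ (q - 1) = b ^ (q - 1 - i) * b ^ i := by
      conv_lhs => rw [h]
      rw [pow_add]
    rw [h2]
    ring
  rw [e2]
  refine norm_add_le' ?_ ?_
  · rw [norm_mul, norm_pow]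
    exact (mul_le_of_le_one_right (norm_nonneg _) (pow_le_one₀ (norm_nonneg _) hb)).trans hq
  · refine IsUltrametricDist.norm_sum_le_of_forall_le_of_nonneg hc0 fun i _ => ?_
    rw [norm_mul, norm_pow]
    exact ((mul_le_of_le_one_left (norm_nonneg _) (pow_le_one₀ (norm_nonneg _) hb)).trans
      (pow_sub_le ha hb i)).trans hc

variable {K : Type} [Field K] [NumberField K] (j : K →+* Cp p)

theorem val_int (x : 𝓞 K) (v : HeightOneSpectrum (𝓞 K)) : v.valuation K (x : K) ≤ 1 :=
  v.valuation_le_one x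

theorem val_lt_iff (x : 𝓞 K) (v : HeightOneSpectrum (𝓞 K)) :
    v.valuation K (x : K) < 1 ↔ x ∈ v.asIdeal := v.valuation_lt_one_iff_mem x

theorem val_one_of {x : 𝓞 K} {v : HeightOneSpectrum (𝓞 K)} (h : x ∉ v.asIdeal) :
    v.valuation K (x : K) = 1 :=
  le_antisymm (val_int x v) (not_lt.1 fun h1 => h ((val_lt_iff x v).1 h1))

theorem exists_frac (v : HeightOneSpectrum (𝓞 K)) {x : K} (hx : v.valuation K x ≤ 1) :
    ∃ n d : 𝓞 K, d ∉ v.asIdeal ∧ x * (d : K) = (n : K) := by
  obtain ⟨n, d, h⟩ := v.exists_primeCompl_mul_eq_of_integer x hx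
  exact ⟨n, d, d.2, h⟩

/-- division by `p` -/
theorem exists_div_p {v : HeightOneSpectrum (𝓞 K)}
    (h1 : v.valuation K ((p : ℕ) : K) = WithZero.exp (-1 : ℤ)) {y : K}
    (hy : v.valuation K y < 1) : ∃ z : K, y = (p : ℕ) * z ∧ v.valuation K z ≤ 1 := by
  have hp0 : ((p : ℕ) : K) ≠ 0 := by exact_mod_cast hp.1.ne_zero
  refine ⟨y / (p : ℕ), (mul_div_cancel₀ y hp0).symm, ?_⟩
  rw [map_div₀, h1]
  rcases eq_or_ne y 0 with rfl | hy0
  · rw [map_zero, zero_div]
    exact zero_le_one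
  · have h2 : v.valuation K y ≤ WithZero.exp (-1 : ℤ) := by
      have h0 : v.valuation K y ≠ 0 := (Valuation.ne_zero_iff _).2 hy0
      obtain ⟨m, hm⟩ := WithZero.ne_zero_iff_exists.1 h0
      rw [← hm] at hy ⊢
      rw [← WithZero.coe_one, WithZero.coe_lt_coe] at hy
      have h3 : (m : WithZero (Multiplicative ℤ)) = WithZero.exp (Multiplicative.toAdd m) := rfl
      rw [h3, WithZero.exp_le_exp]
      have h4 : Multiplicative.toAdd m < 0 := hy
      omega
    exact (div_le_one₀ (by rw [zero_lt_iff]; exact WithZero.exp_ne_zero)).2 h2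

theorem norm_p_lt : ‖((p : ℕ) : Cp p)‖ < 1 := by
  have h2 : ((p : ℕ) : PadicAlgCl p) = algebraMap ℚ_[p] (PadicAlgCl p) (p : ℚ_[p]) := by
    rw [map_natCast]
  have h3 := PadicAlgCl.norm_extends p (p : ℚ_[p])
  show ‖((p : ℕ) : PadicAlgCl p)‖ < 1
  rw [h2]
  exact h3.trans_lt Padic.norm_p_lt_one

/-- an element of the Galois group that is close to the identity on the integers -/
theorem fix_of_le (h1 : (pls j).valuation K ((p : ℕ) : K) = WithZero.exp (-1 : ℤ)) (t : Gp p)
    {c : ℝ} (hc1 : c < 1) (hcp : ‖((p : ℕ) : Cp p)‖ ≤ c)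
    (H : ∀ x : K, (pls j).valuation K x ≤ 1 → ‖t (j x) - j x‖ ≤ c) (x : K) : t (j x) = j x := by
  have hc0 : 0 ≤ c := (norm_nonneg _).trans hcp
  let v := pls j
  have hfinq : Finite (𝓞 K ⧸ v.asIdeal) := Ideal.finiteQuotientOfFreeOfNeBot v.asIdeal v.ne_bot
  have hmax : v.asIdeal.IsMaximal := v.isMaximal
  let fld : Field (𝓞 K ⧸ v.asIdeal) := Ideal.Quotient.field v.asIdeal
  have hft : Fintype (𝓞 K ⧸ v.asIdeal) := Fintype.ofFinite _
  set q := Fintype.card (𝓞 K ⧸ v.asIdeal) with hq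
  have hq0 : ((q : ℕ) : 𝓞 K) ∈ v.asIdeal := by
    rw [← Ideal.Quotient.eq_zero_iff_mem, map_natCast]
    exact Nat.cast_card_eq_zero (𝓞 K ⧸ v.asIdeal)
  have hqn : ‖((q : ℕ) : Cp p)‖ < 1 := by
    have h2 := (mem_pid j (q : 𝓞 K)).1 hq0
    rwa [map_natCast, map_natCast] at h2
  have hqc : ‖((q : ℕ) : Cp p)‖ ≤ c := by
    have h2 : (p : ℤ) ∣ q := (Pool.Agent.W94.F3.norm_int_lt_iff (q : ℤ)).1 (by
      rw [Int.cast_natCast]
      exact hqn)
    obtain ⟨k, hk⟩ := Int.natCast_dvd_natCast.1 h2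
    rw [hk, Nat.cast_mul, norm_mul]
    refine (mul_le_of_le_one_right (norm_nonneg _) ?_).trans hcp
    have := Pool.Agent.W94.F3.norm_int_le (p := p) (k : ℤ)
    rwa [Int.cast_natCast] at this
  have hpow : ∀ n : 𝓞 K, n ^ q - n ∈ v.asIdeal := by
    intro n
    rw [← Ideal.Quotient.eq_zero_iff_mem, map_sub, map_pow, sub_eq_zero]
    exact FiniteField.pow_card _
  have hstep : ∀ x : K, v.valuation K x ≤ 1 →
      ∃ z : K, x ^ q - x = (p : ℕ) * z ∧ v.valuation K z ≤ 1 := by
    intro x hx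
    apply exists_div_p h1
    obtain ⟨n, d, hd, hxd⟩ := exists_frac v hx
    have hd1 := val_one_of hd
    have hd0 : (d : K) ≠ 0 := by
      intro h
      rw [h, map_zero] at hd1
      exact zero_ne_one hd1
    have e : x = (n : K) / d := by rw [← hxd, mul_div_cancel_right₀ _ hd0]
    have e2 : x ^ q - x = ((n ^ q * d - n * d ^ q : 𝓞 K) : K) / ((d : K) ^ q * d) := by
      rw [e, div_pow, div_sub_div _ _ (pow_ne_zero _ hd0) hd0]
      congr 1
      have e4 := map_sub (algebraMap (𝓞 K) K) (n ^ q * d) (n * d ^ q)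
      rw [map_mul, map_mul, map_pow, map_pow] at e4
      refine Eq.trans ?_ e4.symm
      ring
    rw [e2, map_div₀, map_mul, map_pow, hd1, one_pow, mul_one, div_one]
    rw [val_lt_iff]
    have e3 : n ^ q * d - n * d ^ q = (n ^ q - n) * d - n * (d ^ q - d) := by ring
    rw [e3]
    exact v.asIdeal.sub_mem (v.asIdeal.mul_mem_right _ (hpow n)) (v.asIdeal.mul_mem_left _ (hpow d))
  have key : ∀ (m : ℕ) (x : K), v.valuation K x ≤ 1 → ‖t (j x) - j x‖ ≤ c ^ (m + 1) := by
    intro m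
    induction m with
    | zero =>
      intro x hx
      rw [zero_add, pow_one]
      exact H x hx
    | succ m ih =>
      intro x hx
      obtain ⟨z, hz1, hz2⟩ := hstep x hx
      have hjx : ‖j x‖ ≤ 1 := norm_le_one_of_val j hx
      have htx : ‖t (j x)‖ ≤ 1 := by rw [norm_gal]; exact hjx
      have e1 : j x = j x ^ q - (p : ℕ) * j z := by
        have := congrArg j hz1
        rw [map_sub, map_pow, map_mul, map_natCast] at this
        linear_combination -this
      have e2 : t (j x) = t (j x) ^ q - (p : ℕ) * t (j z) := by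
        have := congrArg t e1
        rw [map_sub, map_pow, map_mul, map_natCast] at this
        exact this
      have e3 : t (j x) - j x = (t (j x) ^ q - j x ^ q) - (p : ℕ) * (t (j z) - j z) := by
        linear_combination e2 - e1
      rw [e3]
      refine norm_sub_le' ?_ ?_
      · refine (pow_sub_le' htx hjx (H x hx) hqc).trans ?_
        rw [pow_succ' c (m + 1)]
        exact mul_le_mul_of_nonneg_left (ih x hx) hc0
      · rw [norm_mul, pow_succ' c (m + 1)]
        exact mul_le_mul hcp (ih z hz2) (norm_nonneg _) hc0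
  have key2 : ∀ x : K, v.valuation K x ≤ 1 → t (j x) = j x := by
    intro x hx
    rw [← sub_eq_zero, ← norm_le_zero_iff]
    have hlim : Filter.Tendsto (fun m : ℕ => c ^ (m + 1)) Filter.atTop (nhds 0) :=
      (Filter.tendsto_add_atTop_iff_nat 1).2 (tendsto_pow_atTop_nhds_zero_of_lt_one hc0 hc1)
    exact ge_of_tendsto' hlim fun m => key m x hx
  rcases le_total (v.valuation K x) 1 with h | h
  · exact key2 x h
  · have h2 : v.valuation K x⁻¹ ≤ 1 := by
      rw [map_inv₀]
      exact inv_le_one_of_one_le₀ h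
    have h3 := key2 x⁻¹ h2
    rw [map_inv₀, map_inv₀, inv_inj] at h3
    exact h3

/-- **Primes that split completely.** -/
theorem fix_of_split (h1 : (pls j).valuation K ((p : ℕ) : K) = WithZero.exp (-1 : ℤ))
    (h2 : Ideal.absNorm (pls j).asIdeal = p) (t : Gp p) (x : K) : t (j x) = j x := by
  refine fix_of_le j h1 t norm_p_lt le_rfl (fun x hx => ?_) x
  let v := pls j
  have hmax : v.asIdeal.IsMaximal := v.isMaximal
  let fld : Field (𝓞 K ⧸ v.asIdeal) := Ideal.Quotient.field v.asIdeal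
  have hcard : Nat.card (𝓞 K ⧸ v.asIdeal) = p := by
    rw [← h2]
    rfl
  have hfinq : Finite (𝓞 K ⧸ v.asIdeal) := Nat.finite_of_card_ne_zero (by
    rw [hcard]
    exact hp.1.ne_zero)
  have hpz : ((p : ℕ) : 𝓞 K ⧸ v.asIdeal) = 0 := by
    rw [← hcard]
    have : Fintype (𝓞 K ⧸ v.asIdeal) := Fintype.ofFinite _
    rw [Nat.card_eq_fintype_card]
    exact Nat.cast_card_eq_zero _
  have hchar : CharP (𝓞 K ⧸ v.asIdeal) p := by
    refine (CharP.charP_iff_prime_eq_zero hp.1).2 hpz
  have hsurj : Function.Surjective (ZMod.castHom (dvd_refl p) (𝓞 K ⧸ v.asIdeal)) := by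
    have hinj := (ZMod.castHom (dvd_refl p) (𝓞 K ⧸ v.asIdeal)).injective
    refine ((Nat.bijective_iff_injective_and_card _).2 ⟨hinj, ?_⟩).2
    rw [hcard, Nat.card_zmod]
  obtain ⟨n, d, hd, hxd⟩ := exists_frac v hx
  have hd1 := val_one_of hd
  have hd0 : (d : K) ≠ 0 := by
    intro h
    rw [h, map_zero] at hd1
    exact zero_ne_one hd1
  obtain ⟨m, hm⟩ := hsurj ((Ideal.Quotient.mk v.asIdeal n) / (Ideal.Quotient.mk v.asIdeal d))
  obtain ⟨k, rfl⟩ := ZMod.intCast_surjective m
  rw [map_intCast] at hm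
  have hdne : (Ideal.Quotient.mk v.asIdeal d) ≠ 0 := fun h =>
    hd (Ideal.Quotient.eq_zero_iff_mem.1 h)
  rw [eq_div_iff hdne] at hm
  have hmem : n - (k : 𝓞 K) * d ∈ v.asIdeal := by
    rw [← Ideal.Quotient.eq_zero_iff_mem, map_sub, map_mul, map_intCast, hm, sub_self]
  have hval : v.valuation K (x - (k : K)) < 1 := by
    have e : x - (k : K) = ((n - (k : 𝓞 K) * d : 𝓞 K) : K) / d := by
      have e4 := map_sub (algebraMap (𝓞 K) K) n ((k : 𝓞 K) * d)
      rw [map_mul, map_intCast] at e4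
      have e5 : ((n - (k : 𝓞 K) * d : 𝓞 K) : K) = (x - (k : K)) * d := by
        refine e4.trans ?_
        rw [sub_mul, hxd]
      rw [e5, mul_div_cancel_right₀ _ hd0]
    rw [e, map_div₀, hd1, div_one, val_lt_iff]
    exact hmem
  obtain ⟨z, hz1, hz2⟩ := exists_div_p h1 hval
  have e : x = (k : K) + (p : ℕ) * z := by linear_combination hz1
  have e1 : t (j x) - j x = (p : ℕ) * (t (j z) - j z) := by
    rw [e]
    simp only [map_add, map_mul, map_intCast, map_natCast]
    ring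
  rw [e1, norm_mul]
  refine mul_le_of_le_one_right (norm_nonneg _) (norm_sub_le' ?_ ?_)
  · rw [norm_gal]
    exact norm_le_one_of_val j hz2
  · exact norm_le_one_of_val j hz2

/-- **Unramified primes.** -/
theorem exists_detect (h1 : (pls j).valuation K ((p : ℕ) : K) = WithZero.exp (-1 : ℤ)) :
    ∃ S : Set (Cp p), S.Finite ∧ (∀ x ∈ S, ‖x‖ ≤ 1) ∧
      ∀ u : Gp p, (∀ x ∈ S, ‖u x - x‖ < 1) → ∀ x : K, u (j x) = j x := by
  classical
  let B := RingOfIntegers.basis K
  refine ⟨Set.range fun i => j (B i : 𝓞 K), Set.finite_range _, ?_, fun u hu x => ?_⟩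
  · rintro _ ⟨i, rfl⟩
    exact norm_int j (B i)
  · have hsup : ∃ c : ℝ, c < 1 ∧ ‖((p : ℕ) : Cp p)‖ ≤ c ∧
        ∀ i, ‖u (j (B i : 𝓞 K)) - j (B i : 𝓞 K)‖ ≤ c := by
      let T : Finset ℝ := insert ‖((p : ℕ) : Cp p)‖
        (Finset.univ.image fun i => ‖u (j (B i : 𝓞 K)) - j (B i : 𝓞 K)‖)
      have hT : T.Nonempty := Finset.insert_nonempty _ _
      refine ⟨T.max' hT, ?_, Finset.le_max' T _ (Finset.mem_insert_self _ _), fun i => ?_⟩
      · rw [Finset.max'_lt_iff]
        intro y hy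
        rw [Finset.mem_insert] at hy
        rcases hy with rfl | hy
        · exact norm_p_lt
        · rw [Finset.mem_image] at hy
          obtain ⟨i, -, rfl⟩ := hy
          exact hu _ ⟨i, rfl⟩
      · exact Finset.le_max' T _ (Finset.mem_insert_of_mem (Finset.mem_image_of_mem _
          (Finset.mem_univ i)))
    obtain ⟨c, hc1, hcp, hcB⟩ := hsup
    have hc0 : 0 ≤ c := (norm_nonneg _).trans hcp
    have hint : ∀ y : 𝓞 K, ‖u (j (y : K)) - j (y : K)‖ ≤ c := by
      intro y
      have e : (y : K) = ∑ i, ((B.repr y i : ℤ) : K) * (B i : 𝓞 K) := by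
        have e4 := congrArg (algebraMap (𝓞 K) K) (B.sum_repr y)
        rw [map_sum] at e4
        refine e4.symm.trans (Finset.sum_congr rfl fun i _ => ?_)
        rw [zsmul_eq_mul, map_mul, map_intCast]
      have e2 : u (j (y : K)) - j (y : K) =
          ∑ i, ((B.repr y i : ℤ) : Cp p) * (u (j (B i : 𝓞 K)) - j (B i : 𝓞 K)) := by
        rw [e]
        simp only [map_sum, map_mul, map_intCast, mul_sub, Finset.sum_sub_distrib]
      rw [e2]
      refine IsUltrametricDist.norm_sum_le_of_forall_le_of_nonneg hc0 fun i _ => ?_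
      rw [norm_mul]
      exact (mul_le_of_le_one_left (norm_nonneg _)
        (Pool.Agent.W94.F3.norm_int_le _)).trans (hcB i)
    refine fix_of_le j h1 u hc1 hcp (fun x hx => ?_) x
    obtain ⟨n, d, hd, hxd⟩ := exists_frac (pls j) hx
    have hd1 : ‖j (d : K)‖ = 1 := by
      refine le_antisymm (norm_int j _) ?_
      have h2 : d ∉ Pool.Agent.TH841.NF.pid j := hd
      rw [mem_pid, not_lt] at h2
      exact h2
    have hd0 : j (d : K) ≠ 0 := by
      intro h
      rw [h, norm_zero] at hd1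
      exact zero_ne_one hd1
    have hud1 : ‖u (j (d : K))‖ = 1 := by rw [norm_gal]; exact hd1
    have hud0 : u (j (d : K)) ≠ 0 := by
      intro h
      rw [h, norm_zero] at hud1
      exact zero_ne_one hud1
    have e : j x = j n / j d := by
      rw [eq_div_iff hd0, ← map_mul, hxd]
    have e2 : u (j x) - j x = ((u (j n) - j n) * j d - j n * (u (j d) - j d)) /
        (u (j d) * j d) := by
      rw [e, map_div₀]
      field_simp
      ring
    rw [e2, norm_div, norm_mul (u (j (d : K))), hud1, hd1, mul_one, div_one]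
    refine norm_sub_le' ?_ ?_
    · rw [norm_mul, hd1, mul_one]
      exact hint n
    · rw [norm_mul]
      exact (mul_le_of_le_one_left (norm_nonneg _) (norm_int j n)).trans (hint d)

end

end Pool.Agent.R901.LD
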