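import Pool.Agent.R901.LD.NfA
import Pool.Agent.TH841.NF.Hom
import Pool.Agent.Y667.BKP.Main

/-!
# The Tate-Shafarevich group over a number field `K` of `l`-power degree
-/

set_option autoImplicit false

namespace Pool.Agent.R901.LD

open WeierstrassCurve NumberField IsDedekindDomain
open Pool.Agent.TH841.SH.D (act Gal Pt IsCoc IsCob Coch)
open Pool.Agent.TH841.NF (act_act act_id Sc Fx Emb sc_any tm aG pls)
open Pool.Agent.W94.F3 (Cp Gp)

attribute [local instance] Classical.decEq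
attribute [local instance 10000] AlgebraicClosure.instAlgebra
attribute [local instance 10001] IntermediateField.algebra'

/-- the curve `y² = x³ + a x + b` over `K` -/
def WK (a b : ℤ) (K : Type) [Field K] : WeierstrassCurve K := ⟨0, 0, 0, (a : K), (b : K)⟩

theorem sc_WK (a b : ℤ) (K : Type) [Field K] [Algebra ℚ K] :
    Sc (algebraMap ℚ K) 1 (EW a b) (WK a b K) := by
  refine ⟨one_ne_zero, ?_, ?_, ?_, ?_, ?_⟩ <;> simp [EW, WK]

/-- `K` is a Galois extension of `ℚ` of degree a power of `l`; the primes which divide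
`2 l (4 a³ + 27 b²)` split completely in `K`, and for all other primes `p` the number of the points
modulo `p` is prime to `l`, or `p` is unramified -/
structure AdmF (a b : ℤ) (l : ℕ) (K : Type) [Field K] [NumberField K] : Prop where
  galois : IsGalois ℚ K
  degree : ∃ n : ℕ, Module.finrank ℚ K = l ^ n
  split : ∀ p : ℕ, p.Prime → (p : ℤ) ∣ 2 * l * (4 * a ^ 3 + 27 * b ^ 2) →
    ∀ v : HeightOneSpectrum (𝓞 K), (p : 𝓞 K) ∈ v.asIdeal →
      v.valuation K ((p : ℕ) : K) = WithZero.exp (-1 : ℤ) ∧ Ideal.absNorm v.asIdeal = p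
  good : ∀ p : ℕ, p.Prime → ¬ (p : ℤ) ∣ 2 * l * (4 * a ^ 3 + 27 * b ^ 2) →
    ¬ l ∣ Nat.card {v : ZMod p × ZMod p // v.2 ^ 2 = v.1 ^ 3 + (a : ZMod p) * v.1 + b} + 1 ∨
    ∀ v : HeightOneSpectrum (𝓞 K), (p : 𝓞 K) ∈ v.asIdeal →
      v.valuation K ((p : ℕ) : K) = WithZero.exp (-1 : ℤ)

theorem p_mem_pls {p : ℕ} [hp : Fact p.Prime] {K : Type} [Field K] [NumberField K]
    (j : K →+* Cp p) : (p : 𝓞 K) ∈ (pls j).asIdeal := by
  have h : ‖j (algebraMap (𝓞 K) K ((p : ℕ) : 𝓞 K))‖ < 1 := by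
    rw [map_natCast, map_natCast]
    exact norm_p_lt
  exact h

section emb
variable (K : Type) [Field K] [NumberField K] (e : AlgebraicClosure K ≃+* Qb)

/-- the embedding of `K` in the algebraic closure of `ℚ` -/
noncomputable def emb : K →ₐ[ℚ] Qb :=
  ((e : AlgebraicClosure K →+* Qb).comp (algebraMap K (AlgebraicClosure K))).toRatAlgHom

theorem emb_apply (x : K) : emb K e x = e (algebraMap K (AlgebraicClosure K) x) := rfl

theorem mem_fix (g : Gal ℚ) : g ∈ (emb K e).fieldRange.fixingSubgroup ↔ Fx e g := by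
  rw [IntermediateField.mem_fixingSubgroup_iff]
  constructor
  · intro h x
    exact h _ ⟨x, rfl⟩
  · rintro h _ ⟨x, rfl⟩
    exact h x

theorem gal_emb [IsGalois ℚ K] : IsGalois ℚ (emb K e).fieldRange :=
  IsGalois.of_algEquiv (AlgEquiv.ofInjectiveField (emb K e))

theorem fd_emb : FiniteDimensional ℚ (emb K e).fieldRange :=
  LinearEquiv.finiteDimensional (AlgEquiv.ofInjectiveField (emb K e)).toLinearEquiv

theorem pg_emb [IsGalois ℚ K] {l n : ℕ} (hl : l.Prime) (h : Module.finrank ℚ K = l ^ n) :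
    IsPGroup l ((emb K e).fieldRange ≃ₐ[ℚ] (emb K e).fieldRange) := by
  have : Fact l.Prime := ⟨hl⟩
  have h1 := gal_emb K e
  have h2 := fd_emb K e
  refine IsPGroup.of_card (n := n) ?_
  rw [IsGalois.card_aut_eq_finrank, ← h]
  exact (LinearEquiv.finrank_eq (AlgEquiv.ofInjectiveField (emb K e)).toLinearEquiv).symm

end emb

/-- the Selmer group over `K` -/
theorem sel_nf {a b : ℤ} {l : ℕ} (hl : l.Prime) (hl2 : l ≠ 2)
    (hd : 4 * a ^ 3 + 27 * b ^ 2 ≠ 0) (hS : TrivSel a b l) (K : Type) [Field K] [NumberField K]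
    (hK : AdmF a b l K) (e : AlgebraicClosure K ≃+* Qb) :
    ∀ c ∈ Zs a b l (emb K e).fieldRange.fixingSubgroup,
      Cob l (emb K e).fieldRange.fixingSubgroup c := by
  obtain ⟨hg, ⟨n, hn⟩, hsp, hgd⟩ := hK
  have h1 := gal_emb K e
  have h2 := fd_emb K e
  refine selmer_zero hl hl2 hd hS (emb K e).fieldRange (pg_emb K e hl hn) ?_ ?_
  · rintro p hp hpd ι t _ ⟨x, rfl⟩
    let j : K →+* Cp p := (ι : Qb →+* Cp p).comp (emb K e : K →+* Qb)
    obtain ⟨h3, h4⟩ := hsp p hp.1 hpd (pls j) (p_mem_pls j)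
    exact fix_of_split j h3 h4 t x
  · intro p hp hpd
    rcases hgd p hp.1 hpd with h | h
    · exact Or.inl h
    · right
      intro ι
      let j : K →+* Cp p := (ι : Qb →+* Cp p).comp (emb K e : K →+* Qb)
      obtain ⟨S, hS1, hS2, hS3⟩ := exists_detect j (h (pls j) (p_mem_pls j))
      refine ⟨S, hS1, hS2, ?_⟩
      rintro u hu _ ⟨x, rfl⟩
      exact hS3 u hu x

/-- the points over `K` -/
theorem pts_nf {a b : ℤ} {l : ℕ} (hl : l.Prime) (hd : 4 * a ^ 3 + 27 * b ^ 2 ≠ 0)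
    (K : Type) [Field K] [NumberField K] (e : AlgebraicClosure K ≃+* Qb)
    (hsel : ∀ c ∈ Zs a b l (emb K e).fieldRange.fixingSubgroup,
      Cob l (emb K e).fieldRange.fixingSubgroup c) :
    Finite (SP a b K) ∧ ¬ l ∣ Nat.card (SP a b K) :=
  points_finite hl hd (emb K e).fieldRange hsel K (emb K e) fun _ => Iff.rfl

theorem exists_open {a b : ℤ} (Q : SP a b Qb) :
    ∃ U : Subgroup (Gal ℚ), IsOpen (U : Set (Gal ℚ)) ∧ ∀ u ∈ U, u • Q - Q = 0 := by
  rcases cases Q with rfl | ⟨x, y, h, rfl⟩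
  · refine ⟨⊤, isOpen_univ, fun u _ => ?_⟩
    rw [smul_zero, sub_zero]
  · let E : IntermediateField ℚ Qb := IntermediateField.adjoin ℚ {x, y}
    have hE : FiniteDimensional ℚ E := by
      have : Finite ({x, y} : Set Qb) := (Set.toFinite {x, y}).to_subtype
      exact IntermediateField.finiteDimensional_adjoin fun z _ => Algebra.IsIntegral.isIntegral z
    refine ⟨E.fixingSubgroup, E.fixingSubgroup_isOpen, fun u hu => ?_⟩
    rw [IntermediateField.mem_fixingSubgroup_iff] at hu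
    rw [sub_eq_zero]
    obtain ⟨h', e⟩ := smul_some u x y h
    rw [e]
    exact mkp_congr (hu x (IntermediateField.subset_adjoin _ _ (Or.inl rfl)))
      (hu y (IntermediateField.subset_adjoin _ _ (Or.inr rfl)))

theorem LT_cob {a b : ℤ} {H : Subgroup (Gal ℚ)} (Q : SP a b Qb) (K : Type) [Field K]
    [Algebra ℚ K] : LT a b H K (fun g : Gal ℚ => g • Q - Q) := by
  intro ι
  refine ⟨act (EW a b) ι Q, fun τ σ _ h => ?_⟩
  show act (EW a b) ι (σ • Q - Q) = _
  rw [map_sub, smul_def, act_act, act_act]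
  congr 2
  congr 1
  apply AlgHom.ext
  intro x
  exact (h x).symm

section sha
variable {a b : ℤ} {l : ℕ} {K : Type} [Field K] [NumberField K]

/-- `Ш(K)[l] = 0` -/
theorem sha_nf (hl : l.Prime) (hd : 4 * a ^ 3 + 27 * b ^ 2 ≠ 0)
    (e : AlgebraicClosure K ≃+* Qb)
    (hsel : ∀ c ∈ Zs a b l (emb K e).fieldRange.fixingSubgroup,
      Cob l (emb K e).fieldRange.fixingSubgroup c)
    (s : Pool.Agent.TH841.NF.D.Sha (WK a b K)) (hs : l • s = 0) : s = 0 := by
  obtain ⟨⟨f, hf⟩, rfl⟩ := QuotientAddGroup.mk_surjective s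
  have hf' : Pool.Agent.TH841.NF.D.IsShaCoc (WK a b K) f := hf
  have hW := sc_WK a b K
  set H := (emb K e).fieldRange.fixingSubgroup with hH
  have hfx : ∀ {h : Gal ℚ}, h ∈ H → Fx e h := fun {h} hh => (mem_fix K e h).1 hh
  -- `l f` is a coboundary
  have h1 : (l • (⟨f, hf⟩ : Pool.Agent.TH841.NF.D.shaCoc (WK a b K))) ∈
      (Pool.Agent.TH841.SH.D.cob (WK a b K)).addSubgroupOf
        (Pool.Agent.TH841.NF.D.shaCoc (WK a b K)) := by
    rw [← QuotientAddGroup.eq_zero_iff]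
    exact hs
  obtain ⟨P, hP⟩ : IsCob (WK a b K) (l • f) := h1
  let g : Gal ℚ → SP a b Qb := Pool.Agent.TH841.NF.tr hW e f
  let P' : SP a b Qb := tm (sc_any hW (e : AlgebraicClosure K →+* Qb)) P
  have hg1 : ∀ h ∈ H, l • g h = h • P' - P' := by
    intro h hh
    have h2 := Pool.Agent.TH841.NF.tr_cob hW e hP (hfx hh)
    have h3 : Pool.Agent.TH841.NF.tr hW e (l • f) h = l • g h := map_nsmul _ l (f _)
    rw [h3] at h2
    exact h2
  have hg2 : CocOn H g := fun x hx y hy => Pool.Agent.TH841.NF.tr_coc hW e hf'.1 (hfx hx) (hfx hy)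
  have hg3 : ∃ U : Subgroup (Gal ℚ), IsOpen (U : Set (Gal ℚ)) ∧ ∀ u ∈ U, u ∈ H → g u = 0 := by
    obtain ⟨S, hS⟩ := Pool.Agent.TH841.NF.coc_fin hf'.1
    let E : IntermediateField ℚ Qb := IntermediateField.adjoin ℚ (e '' (S : Set (AlgebraicClosure K)))
    have hE : FiniteDimensional ℚ E := by
      have : Finite (e '' (S : Set (AlgebraicClosure K))) :=
        (S.finite_toSet.image e).to_subtype
      exact IntermediateField.finiteDimensional_adjoin fun z _ => Algebra.IsIntegral.isIntegral z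
    refine ⟨E.fixingSubgroup, E.fixingSubgroup_isOpen, fun u hu huH => ?_⟩
    rw [IntermediateField.mem_fixingSubgroup_iff] at hu
    have h2 : f (Pool.Agent.TH841.NF.cF e u) = 0 := by
      apply hS
      intro x hx
      apply e.injective
      rw [Pool.Agent.TH841.NF.e_cF e (hfx huH)]
      exact hu _ (IntermediateField.subset_adjoin _ _ ⟨x, hx, rfl⟩)
    show tm _ (f (Pool.Agent.TH841.NF.cF e u)) = 0
    rw [h2, map_zero]
  obtain ⟨Q, hQ⟩ := exists_div (L := Qb) hd hl.pos P'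
  let c : Gal ℚ → SP a b Qb := fun h => g h - (h • Q - Q)
  obtain ⟨U, hU1, hU2⟩ := hg3
  obtain ⟨V, hV1, hV2⟩ := exists_open Q
  have hLT : ∀ (k : Type) [Field k] [Algebra ℚ k], Emb hW e k f → LT a b H k c := by
    intro k _ _ hE
    have hg : LT a b H k g := by
      intro ι
      obtain ⟨R, hR⟩ := hE ι
      exact ⟨R, fun τ σ hσ h => hR τ σ (hfx hσ) (AlgHom.ext h)⟩
    have h2 := hg.add (LT_cob (H := H) Q k).neg
    refine h2.ext fun σ _ => ?_
    exact (sub_eq_add_neg (g σ) (σ • Q - Q)).symm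
  have hc : c ∈ Zs a b l H := by
    refine ⟨fun h hh => ?_, fun x hx y hy => ?_, ⟨U ⊓ V, hU1.inter hV1, fun u hu huH => ?_⟩,
      fun p _ => hLT _ (Pool.Agent.TH841.NF.emb_p hW e hf' p), hLT _
        (Pool.Agent.TH841.NF.emb_r hW e hf')⟩
    · show l • (g h - (h • Q - Q)) = 0
      rw [smul_sub, hg1 h hh, smul_sub, smul_comm l h Q, hQ, sub_self]
    · show g (x * y) - ((x * y) • Q - Q) = (g x - (x • Q - Q)) + x • (g y - (y • Q - Q))
      rw [hg2 x hx y hy, cob_coc Q x y, smul_sub x (g y)]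
      abel
    · show g u - (u • Q - Q) = 0
      rw [hU2 u hu.1 huH, hV2 u hu.2, sub_zero]
  obtain ⟨T, -, hT⟩ := hsel c hc
  obtain ⟨R, hR⟩ := Pool.Agent.TH841.NF.any_surj hW e (Q + T)
  refine (QuotientAddGroup.eq_zero_iff _).2 ?_
  rw [AddSubgroup.mem_addSubgroupOf]
  refine ⟨R, fun σ => ?_⟩
  apply Pool.Agent.TH841.NF.tm_inj (sc_any hW (e : AlgebraicClosure K →+* Qb))
  have h2 := Pool.Agent.TH841.NF.tr_cQ hW e f σ
  have hh : Pool.Agent.TH841.NF.cQ e σ ∈ H := (mem_fix K e _).2 (Pool.Agent.TH841.NF.cQ_fx e σ)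
  have h3 : g (Pool.Agent.TH841.NF.cQ e σ) = (Pool.Agent.TH841.NF.cQ e σ) • (Q + T) - (Q + T) := by
    have h4 : g (Pool.Agent.TH841.NF.cQ e σ) -
        ((Pool.Agent.TH841.NF.cQ e σ) • Q - Q) = (Pool.Agent.TH841.NF.cQ e σ) • T - T := hT _ hh
    rw [smul_add]
    rw [sub_eq_iff_eq_add] at h4
    rw [h4]
    abel
  show tm _ (f σ) = tm _ (act (WK a b K) σ.toAlgHom R - R)
  rw [← h2, map_sub]
  have h5 := Pool.Agent.TH841.NF.tr_act hW e (Pool.Agent.TH841.NF.cQ_fx e σ) R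
  rw [Pool.Agent.TH841.NF.cF_cQ] at h5
  rw [h5, hR]
  exact h3

/-- `Ш(K)[l^∞] = 0` -/
theorem sha_nf_pow (hl : l.Prime) (hd : 4 * a ^ 3 + 27 * b ^ 2 ≠ 0)
    (e : AlgebraicClosure K ≃+* Qb)
    (hsel : ∀ c ∈ Zs a b l (emb K e).fieldRange.fixingSubgroup,
      Cob l (emb K e).fieldRange.fixingSubgroup c) (k : ℕ) :
    ∀ s : Pool.Agent.TH841.NF.D.Sha (WK a b K), (l ^ k : ℕ) • s = 0 → s = 0 := by
  induction k with
  | zero => intro s hs; rwa [pow_zero, one_nsmul] at hs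
  | succ k ih =>
    intro s hs
    apply ih
    apply sha_nf hl hd e hsel
    rw [← mul_nsmul', ← pow_succ']
    exact hs

end sha

theorem exists_iso_Qb (K : Type) [Field K] [NumberField K] :
    Nonempty (AlgebraicClosure K ≃+* Qb) := by
  have : IsScalarTower ℚ K (AlgebraicClosure K) := inferInstance
  have : Algebra.IsAlgebraic ℚ (AlgebraicClosure K) := Algebra.IsAlgebraic.trans ℚ K _
  have : IsAlgClosure ℚ (AlgebraicClosure K) := ⟨inferInstance, inferInstance⟩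
  exact ⟨(IsAlgClosure.equiv ℚ (AlgebraicClosure K) Qb).toRingEquiv⟩

/-- **Main theorem over number fields.** -/
theorem nf_main {a b : ℤ} {l : ℕ} (hl : l.Prime) (hl2 : l ≠ 2)
    (hd : 4 * a ^ 3 + 27 * b ^ 2 ≠ 0) (hS : TrivSel a b l) (K : Type) [Field K] [NumberField K]
    (hK : AdmF a b l K) :
    Finite (SP a b K) ∧ ¬ l ∣ Nat.card (SP a b K) ∧
      ∀ (k : ℕ) (s : Pool.Agent.TH841.NF.D.Sha (WK a b K)), (l ^ k : ℕ) • s = 0 → s = 0 := by
  obtain ⟨e⟩ := exists_iso_Qb K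
  have hsel := sel_nf hl hl2 hd hS K hK e
  obtain ⟨h1, h2⟩ := pts_nf hl hd K e hsel
  exact ⟨h1, h2, sha_nf_pow hl hd e hsel⟩

end Pool.Agent.R901.LD
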