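import Pool.Agent.R901.LD.NfB

/-!
# Subfields of Galois extensions of `l`-power degree
-/

set_option autoImplicit false

namespace Pool.Agent.R901.LD

open WeierstrassCurve NumberField IsDedekindDomain
open Pool.Agent.TH841.SH.D (act Gal Pt IsCoc IsCob Coch)
open Pool.Agent.TH841.NF (act_act act_id Sc Fx Emb sc_any tm aG pls)
open Pool.Agent.W94.F3 (Cp Gp)

attribute [local instance] Classical.decEq
attribute [local instance 10000] AlgebraicClosure.instAlgebra
attribute [local instance 10001] IntermediateField.algebra'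

/-- the Selmer group over `K`, for any embedding -/
theorem sel_nf' {a b : ℤ} {l : ℕ} (hl : l.Prime) (hl2 : l ≠ 2)
    (hd : 4 * a ^ 3 + 27 * b ^ 2 ≠ 0) (hS : TrivSel a b l) (K : Type) [Field K] [NumberField K]
    (hK : AdmF a b l K) (ψ : K →ₐ[ℚ] Qb) : (∃ _ : IsGalois ℚ ψ.fieldRange, True) ∧
    ∀ c ∈ Zs a b l ψ.fieldRange.fixingSubgroup, Cob l ψ.fieldRange.fixingSubgroup c := by
  obtain ⟨hg, ⟨n, hn⟩, hsp, hgd⟩ := hK
  have : Fact l.Prime := ⟨hl⟩
  have h1 : IsGalois ℚ ψ.fieldRange := IsGalois.of_algEquiv (AlgEquiv.ofInjectiveField ψ)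
  have h2 : FiniteDimensional ℚ ψ.fieldRange :=
    LinearEquiv.finiteDimensional (AlgEquiv.ofInjectiveField ψ).toLinearEquiv
  refine ⟨⟨h1, trivial⟩, ?_⟩
  refine selmer_zero hl hl2 hd hS ψ.fieldRange ?_ ?_ ?_
  · refine IsPGroup.of_card (n := n) ?_
    rw [IsGalois.card_aut_eq_finrank, ← hn]
    exact (LinearEquiv.finrank_eq (AlgEquiv.ofInjectiveField ψ).toLinearEquiv).symm
  · rintro p hp hpd ι t _ ⟨x, rfl⟩
    let j : K →+* Cp p := (ι : Qb →+* Cp p).comp (ψ : K →+* Qb)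
    obtain ⟨h3, h4⟩ := hsp p hp.1 hpd (pls j) (p_mem_pls j)
    exact fix_of_split j h3 h4 t x
  · intro p hp hpd
    rcases hgd p hp.1 hpd with h | h
    · exact Or.inl h
    · right
      intro ι
      let j : K →+* Cp p := (ι : Qb →+* Cp p).comp (ψ : K →+* Qb)
      obtain ⟨S, hS1, hS2, hS3⟩ := exists_detect j (h (pls j) (p_mem_pls j))
      refine ⟨S, hS1, hS2, ?_⟩
      rintro u hu _ ⟨x, rfl⟩
      exact hS3 u hu x

theorem LT.mono {a b : ℤ} {H H' : Subgroup (Gal ℚ)} (h : H ≤ H') {k : Type} [Field k] [Algebra ℚ k]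
    {f : Gal ℚ → SP a b Qb} (hf : LT a b H' k f) : LT a b H k f := by
  intro ι
  obtain ⟨P, hP⟩ := hf ι
  exact ⟨P, fun τ σ hσ => hP τ σ (h hσ)⟩

theorem Zs.mono {a b : ℤ} {l : ℕ} {H H' : Subgroup (Gal ℚ)} (h : H ≤ H')
    {f : Gal ℚ → SP a b Qb} (hf : f ∈ Zs a b l H') : f ∈ Zs a b l H := by
  obtain ⟨h1, h2, ⟨U, hU, h3⟩, h4, h5⟩ := hf
  exact ⟨fun x hx => h1 x (h hx), fun x hx y hy => h2 x (h hx) y (h hy),
    ⟨U, hU, fun u hu huH => h3 u hu (h huH)⟩, fun p _ => (h4 p).mono h, h5.mono h⟩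

/-- **Main theorem over subfields.** -/
theorem sub_main {a b : ℤ} {l : ℕ} (hl : l.Prime) (hl2 : l ≠ 2)
    (hd : 4 * a ^ 3 + 27 * b ^ 2 ≠ 0) (hS : TrivSel a b l) (K : Type) [Field K] [NumberField K]
    (hK : AdmF a b l K) (F : Type) [Field F] [NumberField F] [Algebra F K] :
    Finite (SP a b F) ∧ ¬ l ∣ Nat.card (SP a b F) ∧
      ∀ (k : ℕ) (s : Pool.Agent.TH841.NF.D.Sha (WK a b F)), (l ^ k : ℕ) • s = 0 → s = 0 := by
  obtain ⟨e⟩ := exists_iso_Qb F
  -- the embedding of `K`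
  let i1 : Algebra F Qb := (emb F e).toRingHom.toAlgebra
  have hFK : IsScalarTower ℚ F K := IsScalarTower.of_algebraMap_eq fun x =>
    DFunLike.congr_fun (Subsingleton.elim (algebraMap ℚ K) ((algebraMap F K).comp
      (algebraMap ℚ F))) x
  have halg : Algebra.IsAlgebraic F K := Algebra.IsAlgebraic.tower_top (K := ℚ) F
  let ψ0 : K →ₐ[F] Qb := IsAlgClosed.lift
  let ψ : K →ₐ[ℚ] Qb := (ψ0 : K →+* Qb).toRatAlgHom
  have hψ : ∀ x : F, ψ (algebraMap F K x) = emb F e x := fun x => ψ0.commutes x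
  obtain ⟨⟨hgal, -⟩, hsel⟩ := sel_nf' hl hl2 hd hS K hK ψ
  have hle : ψ.fieldRange.fixingSubgroup ≤ (emb F e).fieldRange.fixingSubgroup := by
    intro g hg
    rw [IntermediateField.mem_fixingSubgroup_iff] at hg ⊢
    rintro _ ⟨x, rfl⟩
    have h1 := hg (ψ (algebraMap F K x)) ⟨_, rfl⟩
    rw [hψ] at h1
    exact h1
  obtain ⟨hfin, hcard⟩ := points_finite hl hd ψ.fieldRange hsel K ψ fun _ => Iff.rfl
  have hselF : ∀ c ∈ Zs a b l (emb F e).fieldRange.fixingSubgroup,
      Cob l (emb F e).fieldRange.fixingSubgroup c := by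
    intro c hc
    obtain ⟨T, hT1, hT2⟩ := hsel c (Zs.mono hle hc)
    refine ⟨T, hT1, fun g hg => ?_⟩
    obtain ⟨hc1, hc2, -⟩ := hc
    have key : ∀ k ∈ ψ.fieldRange.fixingSubgroup,
        k • (c g - (g • T - T)) = c g - (g • T - T) := by
      intro k hk
      have hk' : g⁻¹ * k * g ∈ ψ.fieldRange.fixingSubgroup := by
        have := Subgroup.Normal.conj_mem (inferInstance : ψ.fieldRange.fixingSubgroup.Normal)
          k hk g⁻¹
        rwa [inv_inv] at this
      have h1 := hc2 k (hle hk) g hg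
      have h2 := hc2 g hg _ (hle hk')
      have e1 : g * (g⁻¹ * k * g) = k * g := by group
      rw [e1, hT2 _ hk'] at h2
      rw [h2, hT2 k hk] at h1
      have e2 : g • ((g⁻¹ * k * g) • T - T) = k • (g • T) - g • T := by
        rw [smul_sub, smul_smul, e1, smul_smul]
      rw [e2] at h1
      rw [smul_sub, smul_sub]
      have h3 : k • c g = c g + (k • g • T - g • T) - (k • T - T) := by
        rw [h1]
        abel
      rw [h3]
      abel
    obtain ⟨R, hR⟩ := exists_pt_of_fixed ψ.fieldRange _ key ψ fun z hz => hz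
    have hR0 : l • R = 0 := by
      apply act_inj ψ
      rw [map_nsmul, hR, map_zero, smul_sub, hc1 g hg, smul_sub, smul_comm l g T, hT1, smul_zero,
        sub_zero, sub_zero]
    have hR1 : R = 0 := by
      by_contra hne
      apply hcard
      have : Fact l.Prime := ⟨hl⟩
      have h4 := addOrderOf_eq_prime hR0 hne
      rw [← h4]
      exact addOrderOf_dvd_natCard R
    rw [hR1, map_zero] at hR
    exact sub_eq_zero.1 hR.symm
  obtain ⟨h1, h2⟩ := pts_nf hl hd F e hselF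
  exact ⟨h1, h2, sha_nf_pow hl hd e hselF⟩

theorem baseChange_WK (a b : ℤ) (F : Type) [Field F] [Algebra ℚ F] :
    (EW a b).baseChange F = WK a b F := by
  ext <;> simp [EW, WK, WeierstrassCurve.baseChange, WeierstrassCurve.map]

theorem fin_WK {a b : ℤ} {F : Type} [Field F] [Algebra ℚ F] (h : Finite (SP a b F)) :
    Finite (WK a b F).toAffine.Point ∧ Nat.card (WK a b F).toAffine.Point = Nat.card (SP a b F) := by
  obtain ⟨e, -⟩ := tr (baseChange_WK a b F)
  have e' : SP a b F ≃ (WK a b F).toAffine.Point := e.toEquiv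
  exact ⟨Finite.of_equiv _ e', (Nat.card_congr e').symm⟩

theorem equiv_WK (a b : ℤ) (F : Type) [Field F] [Algebra ℚ F] :
    Nonempty (SP a b F ≃ (WK a b F).toAffine.Point) := by
  obtain ⟨e, -⟩ := tr (baseChange_WK a b F)
  exact ⟨e.toEquiv⟩

open Classical in
/-- the Bloch–Kato Selmer group -/
theorem bk_zero {a b : ℤ} {l : ℕ} [hl : Fact l.Prime] {F : Type} [Field F] [NumberField F]
    (h1 : Finite (WK a b F).toAffine.Point)
    (h2 : ∀ (k : ℕ) (s : Pool.Agent.TH841.NF.D.Sha (WK a b F)), (l ^ k : ℕ) • s = 0 → s = 0) :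
    (∀ x : TensorProduct ℤ (WK a b F).toAffine.Point ℚ_[l], x = 0) ∧
      ∀ x : Pool.Agent.Y667.BKP.H1f l (WK a b F), x = 0 := by
  refine ⟨Pool.Agent.Y667.BKP.tensor_zero l, Pool.Agent.Y667.BKP.h1f_zero hl.1 h1 0 fun k x hx => ?_⟩
  rw [h2 k x hx]
  exact smul_zero _

end Pool.Agent.R901.LD
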