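import Pool.Agent.R901.LD.NfD

/-!
# Infinite towers of abelian fields: all characters
-/

set_option autoImplicit false

open NumberField IsDedekindDomain UpperHalfPlane MatrixGroups CongruenceSubgroup

namespace Pool.Agent.R901.LD

open Pool.Agent.Y18.BSD Pool.Agent.Y18.NF Pool.Agent.Y18.LP
open Pool.Agent.W263.BSD (pointCount GoodPrime IsLSeries)

section
variable (m : ℕ) (a b : Fin m → ℤ) (hΔ : ∀ i, 4 * a i ^ 3 + 27 * b i ^ 2 ≠ 0)
    (N : Fin m → ℕ) [∀ i, NeZero (N i)]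
    (f : (i : Fin m) → CuspForm (Gamma0 (N i) : Subgroup (GL (Fin 2) ℝ)) 2)
    (hf : ∀ i, Pool.Agent.Y18.BSD.IsFormOf (a i) (b i) (N i) (f i))

include hΔ hf in
/-- **Infinite towers**, with the nonvanishing for every character. -/
theorem tower_char (h0 : ∀ i, RankZero (a i) (b i)) (l n : ℕ) (hl : l.Prime) (H : Subgroup Fam)
    (hH : HOk m a b l n H) (hinf : (H : Set Fam).Infinite) :
    ∃ H0 : Subgroup Fam, H0 ≤ H ∧ (H0 : Set Fam).Infinite ∧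
      (∀ c ∈ H0, ∀ i, ∃ G : ℂ → ℂ, Differentiable ℂ G ∧ (∀ s : ℂ, 3 / 2 < s.re →
        HasProd (fun p : Nat.Primes => ez (N i) (co (f i)) (cvl c p) s p) (G s)) ∧ G 1 ≠ 0) ∧
      ∀ (F : IntermediateField ℚ ℂ) [NumberField F],
        F ≤ IntermediateField.adjoin ℚ {x : ℂ | ∃ c ∈ H0,
          x = eta c (Complex.exp (2 * Real.pi * Complex.I / (dd (sp c) : ℕ)))} →
        ∀ i, RZ F (a i) (b i) (f i) := by
  obtain ⟨lam, h1, h2, h3⟩ := exists_lam hl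
  have hms : ∀ i, MS (N i) (bv (f i)) (co (f i)) := fun i => by
    obtain ⟨w, -, hfr⟩ := (hf i).newf
    exact ms_of (hf i).hrel hfr
  have hv : ∀ i, bv (f i) 0 ≠ 0 := fun i => bv0_ne (hΔ i) (hf i) (h0 i)
  obtain ⟨H0, -, hH0, hH1, hH2⟩ := infinite hms hv hl n lam h1 h2 H (ok_of m a b N f hf hl hH h3)
    hinf ⊥ bot_le (by
      intro c hc i
      rw [Subgroup.mem_bot] at hc
      rw [hc, bt_one]
      exact hv i)
  refine ⟨H0, hH0, hH1, fun c hc i => ?_, fun F _ hF i => ?_⟩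
  · obtain ⟨w, hnf, hfr⟩ := (hf i).newf
    obtain ⟨G, hG1, hG2, hG3⟩ := tw_complete hnf hfr (hf i).cf (hH.fin c (hH0 hc)) (fun q hq => by
      obtain ⟨hq1, hq2⟩ := hH.adm c (hH0 hc) q ((mem_sp (hH.fin c (hH0 hc)) q).1 hq)
      exact ⟨hq1, ((hf i).points q (hq2 i).1).1⟩)
    exact ⟨G, hG1, hG2, hG3 (hH2 _ (H0.inv_mem hc) i)⟩
  · exact core (hΔ i) (hf i) H0 (fun c hc => hH.fin c (hH0 hc)) (fun c hc q hq => by
      obtain ⟨hq1, hq2⟩ := hH.adm c (hH0 hc) q hq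
      exact ⟨hq1, ((hf i).points q (hq2 i).1).1⟩) (fun c hc => hH2 c hc i) F hF

end

end Pool.Agent.R901.LD
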