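import Pool.Agent.R901.LD.Sel
import Pool.Agent.R376.NerG

/-!
# Finiteness of the points over `K`
-/

set_option autoImplicit false

namespace Pool.Agent.R901.LD

open WeierstrassCurve
open Pool.Agent.TH841.SH.D (act Gal Pt IsCoc IsCob LocTriv IsShaCoc Sha)
open Pool.Agent.TH841.NF (act_act act_id)
open Pool.Agent.W94.F3 (Cp Gp)

attribute [local instance] Classical.decEq
attribute [local instance 10000] AlgebraicClosure.instAlgebra
attribute [local instance 10001] IntermediateField.algebra'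

/-- a finitely generated group on which `l` is surjective and injective is finite of order prime
to `l` -/
theorem fin_of_div {A : Type} [AddCommGroup A] (hfg : AddGroup.FG A) {l : ℕ} (hl : l.Prime)
    (hs : ∀ x : A, ∃ y, l • y = x) : Finite A ∧ ¬ l ∣ Nat.card A := by
  have hfg' : Module.Finite ℤ A := Module.Finite.iff_addGroup_fg.2 hfg
  obtain ⟨r, hr1, hr2⟩ := Submodule.exists_sub_one_mem_and_smul_eq_zero_of_fg_of_le_smul
    (Ideal.span {(l : ℤ)}) (⊤ : Submodule ℤ A) hfg'.fg_top (by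
      intro x _
      obtain ⟨y, rfl⟩ := hs x
      rw [← natCast_zsmul]
      exact Submodule.smul_mem_smul (Ideal.mem_span_singleton_self _) trivial)
  rw [Ideal.mem_span_singleton] at hr1
  have hr0 : r ≠ 0 := by
    rintro rfl
    rw [zero_sub, dvd_neg] at hr1
    have h1 : (l : ℤ) ∣ ((1 : ℕ) : ℤ) := by exact_mod_cast hr1
    rw [Int.natCast_dvd_natCast] at h1
    exact hl.one_lt.ne' (Nat.dvd_one.1 h1)
  have hfin : Finite A := by
    refine AddCommGroup.finite_of_fg_torsion A fun x => ?_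
    rw [isOfFinAddOrder_iff_nsmul_eq_zero]
    refine ⟨r.natAbs, Int.natAbs_pos.2 hr0, ?_⟩
    have h1 := hr2 x trivial
    rcases Int.natAbs_eq r with h | h
    · rw [h, natCast_zsmul] at h1
      exact h1
    · rw [h, neg_smul, neg_eq_zero, natCast_zsmul] at h1
      exact h1
  refine ⟨hfin, fun hdvd => ?_⟩
  have : Fact l.Prime := ⟨hl⟩
  obtain ⟨x, hx⟩ := exists_prime_addOrderOf_dvd_card' l hdvd
  have h1 := hr2 x trivial
  have h2 : (l : ℤ) ∣ r := by
    rw [← hx]
    exact addOrderOf_dvd_iff_zsmul_eq_zero.2 h1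
  have h3 : (l : ℤ) ∣ 1 := by
    have := dvd_sub h2 hr1
    rwa [sub_sub_cancel] at this
  have h4 : (l : ℤ) ∣ ((1 : ℕ) : ℤ) := by exact_mod_cast h3
  rw [Int.natCast_dvd_natCast] at h4
  exact hl.one_lt.ne' (Nat.dvd_one.1 h4)

section
variable {a b : ℤ} {l : ℕ}

/-- the cocycle of a point -/
theorem kum_mem {H : Subgroup (Gal ℚ)} (Q : SP a b Qb) (hQ : ∀ h ∈ H, h • (l • Q) = l • Q) :
    (fun g : Gal ℚ => g • Q - Q) ∈ Zs a b l H := by
  have hLT : ∀ (K : Type) [Field K] [Algebra ℚ K],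
      LT a b H K (fun g : Gal ℚ => g • Q - Q) := by
    intro K _ _ ι
    refine ⟨act (EW a b) ι Q, fun τ σ _ h => ?_⟩
    show act (EW a b) ι (σ • Q - Q) = _
    rw [map_sub, smul_def, act_act, act_act]
    congr 2
    congr 1
    apply AlgHom.ext
    intro x
    exact (h x).symm
  refine ⟨fun h hh => ?_, fun g _ h _ => cob_coc Q g h, ?_, fun p _ => hLT _, hLT _⟩
  · show l • (h • Q - Q) = 0
    rw [smul_sub, smul_comm l h Q, hQ h hh, sub_self]
  · rcases cases Q with rfl | ⟨x, y, h, rfl⟩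
    · refine ⟨⊤, isOpen_univ, fun u _ _ => ?_⟩
      show u • (0 : SP a b Qb) - 0 = 0
      rw [smul_zero, sub_zero]
    · let E : IntermediateField ℚ Qb := IntermediateField.adjoin ℚ {x, y}
      have hE : FiniteDimensional ℚ E := by
        have : Finite ({x, y} : Set Qb) := (Set.toFinite {x, y}).to_subtype
        exact IntermediateField.finiteDimensional_adjoin fun z _ => Algebra.IsIntegral.isIntegral z
      refine ⟨E.fixingSubgroup, E.fixingSubgroup_isOpen, fun u hu _ => ?_⟩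
      rw [IntermediateField.mem_fixingSubgroup_iff] at hu
      show u • mkp x y h - mkp x y h = 0
      rw [sub_eq_zero]
      obtain ⟨h', e⟩ := smul_some u x y h
      rw [e]
      exact mkp_congr (hu x (IntermediateField.subset_adjoin _ _ (Or.inl rfl)))
        (hu y (IntermediateField.subset_adjoin _ _ (Or.inr rfl)))

/-- **Finiteness of the points.** -/
theorem points_finite (hl : l.Prime) (hd : 4 * a ^ 3 + 27 * b ^ 2 ≠ 0)
    (K : IntermediateField ℚ Qb)
    (hsel : ∀ c ∈ Zs a b l K.fixingSubgroup, Cob l K.fixingSubgroup c)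
    (F : Type) [Field F] [NumberField F] (φ : F →ₐ[ℚ] Qb) (hφ : ∀ z : Qb, z ∈ K ↔ ∃ z', φ z' = z) :
    Finite (SP a b F) ∧ ¬ l ∣ Nat.card (SP a b F) := by
  have hdF : 4 * ((a : ℤ) : F) ^ 3 + 27 * ((b : ℤ) : F) ^ 2 ≠ 0 := by
    have h : ((4 * a ^ 3 + 27 * b ^ 2 : ℤ) : F) ≠ 0 := by exact_mod_cast hd
    push_cast at h
    exact h
  have hfg0 := Pool.Agent.R376.Ner.fg_pt (K := F) (A := (a : F)) (B := (b : F)) hdF
  have hfg : AddGroup.FG (SP a b F) := by
    have hfg1 : AddGroup.FG (Pool.Agent.H901R3.MS.Pt (a : F) (b : F)) := hfg0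
    exact AddGroup.fg_of_surjective (f := (iso a b F).symm.toAddMonoidHom) (iso a b F).symm.surjective
  refine fin_of_div hfg hl fun P => ?_
  -- division by `l`
  obtain ⟨Q, hQ⟩ := exists_div (L := Qb) hd hl.pos (act (EW a b) φ P)
  have hfixφ : ∀ (R : SP a b F), ∀ h ∈ K.fixingSubgroup,
      h • (act (EW a b) φ R : SP a b Qb) = act (EW a b) φ R := by
    intro R h hh
    rw [smul_def, act_act]
    congr 1
    congr 1
    apply AlgHom.ext
    intro x
    rw [IntermediateField.mem_fixingSubgroup_iff] at hh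
    exact hh (φ x) ((hφ _).2 ⟨x, rfl⟩)
  have hc := hsel _ (kum_mem (l := l) (H := K.fixingSubgroup) Q (by
    intro h hh
    rw [hQ]
    exact hfixφ P h hh))
  obtain ⟨T, hT1, hT2⟩ := hc
  have hfix : ∀ h ∈ K.fixingSubgroup, h • (Q - T) = Q - T := by
    intro h hh
    have h1 : h • Q - Q = h • T - T := hT2 h hh
    rw [smul_sub, sub_eq_sub_iff_add_eq_add]
    rw [sub_eq_sub_iff_add_eq_add] at h1
    rw [h1, add_comm]
  obtain ⟨Q', hQ'⟩ := exists_pt_of_fixed K (Q - T) hfix φ fun z hz => (hφ z).1 hz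
  refine ⟨Q', act_inj φ ?_⟩
  rw [map_nsmul, hQ', smul_sub, hQ, hT1, sub_zero]

end

end Pool.Agent.R901.LD
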