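import Pool.Agent.R901.LD.Glob

/-!
# The Selmer group over an extension of `l`-power degree is trivial
-/

set_option autoImplicit false

namespace Pool.Agent.R901.LD

open WeierstrassCurve
open Pool.Agent.TH841.SH.D (act Gal Pt IsCoc IsCob LocTriv IsShaCoc Sha)
open Pool.Agent.TH841.NF (act_act act_id)
open Pool.Agent.W94.F3 (Cp Gp)

attribute [local instance] Classical.decEq
attribute [local instance 10000] AlgebraicClosure.instAlgebra
attribute [local instance 10001] IntermediateField.algebra'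

/-- trivial `l`-Selmer group over `ℚ` -/
structure TrivSel (a b : ℤ) (l : ℕ) : Prop where
  fin : Finite (SP a b ℚ)
  card : ¬ l ∣ Nat.card (SP a b ℚ)
  sha : ∀ s : Sha (EW a b), l • s = 0 → s = 0

section pts
variable {a b : ℤ}

/-- points with coordinates in a subfield -/
theorem exists_pre {F : Type} [Field F] [Algebra ℚ F] (φ : F →ₐ[ℚ] Qb) (P : SP a b Qb)
    (h : ∀ x y hP, P = mkp x y hP → (∃ x', φ x' = x) ∧ ∃ y', φ y' = y) :
    ∃ Q : SP a b F, act (EW a b) φ Q = P := by
  rcases cases P with rfl | ⟨x, y, hP, rfl⟩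
  · exact ⟨0, map_zero _⟩
  · obtain ⟨⟨x', rfl⟩, ⟨y', rfl⟩⟩ := h x y hP rfl
    have hns : ((EW a b).baseChange F).toAffine.Nonsingular x' y' :=
      (WeierstrassCurve.Affine.baseChange_nonsingular (W := EW a b) (f := φ)
        φ.toRingHom.injective x' y').1 hP
    exact ⟨mkp x' y' hns, rfl⟩

theorem fixed_coord {H : Subgroup (Gal ℚ)} {P : SP a b Qb} (h : ∀ g ∈ H, g • P = P) (x y : Qb)
    (hP : ((EW a b).baseChange Qb).toAffine.Nonsingular x y) (e : P = mkp x y hP) :
    ∀ g ∈ H, g x = x ∧ g y = y := by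
  subst e
  intro g hg
  have h1 := h g hg
  obtain ⟨h', e⟩ := smul_some g x y hP
  rw [e] at h1
  exact mkp_inj h1

/-- points fixed by the Galois group -/
theorem exists_pt_of_fixed (K : IntermediateField ℚ Qb) (P : SP a b Qb)
    (h : ∀ g ∈ K.fixingSubgroup, g • P = P) {F : Type} [Field F] [Algebra ℚ F] (φ : F →ₐ[ℚ] Qb)
    (hφ : ∀ z ∈ K, ∃ z', φ z' = z) : ∃ Q : SP a b F, act (EW a b) φ Q = P := by
  refine exists_pre φ P fun x y hP e => ?_
  have key := fixed_coord h x y hP e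
  have hmem : ∀ z : Qb, (∀ g ∈ K.fixingSubgroup, g z = z) → z ∈ K := by
    intro z hz
    rw [← InfiniteGalois.fixedField_fixingSubgroup K, IntermediateField.mem_fixedField_iff]
    exact hz
  exact ⟨hφ _ (hmem x fun g hg => (key g hg).1), hφ _ (hmem y fun g hg => (key g hg).2)⟩

theorem act_inj {L L' : Type} [Field L] [Algebra ℚ L] [Field L'] [Algebra ℚ L'] (φ : L →ₐ[ℚ] L') :
    Function.Injective (act (EW a b) φ : SP a b L →+ SP a b L') := by
  rw [injective_iff_map_eq_zero]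
  intro P hP
  rcases cases P with rfl | ⟨x, y, h, rfl⟩
  · rfl
  · exfalso
    obtain ⟨h', e⟩ := act_some φ x y h
    rw [e] at hP
    exact mkp_ne hP

theorem exists_rat (P : SP a b Qb) (h : ∀ g : Gal ℚ, g • P = P) :
    ∃ Q : SP a b ℚ, act (EW a b) (Algebra.ofId ℚ Qb) Q = P := by
  refine exists_pre (Algebra.ofId ℚ Qb) P fun x y hP e => ?_
  have key := fixed_coord (H := ⊤) (fun g _ => h g) x y hP e
  refine ⟨?_, ?_⟩
  · exact (InfiniteGalois.mem_range_algebraMap_iff_fixed x).2 fun g => (key g trivial).1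
  · exact (InfiniteGalois.mem_range_algebraMap_iff_fixed y).2 fun g => (key g trivial).2

end pts

section base
variable {a b : ℤ} {l : ℕ}

theorem TrivSel.no_tor (hS : TrivSel a b l) (hl : l.Prime) (T : SP a b Qb) (hT : l • T = 0)
    (h : ∀ g : Gal ℚ, g • T = T) : T = 0 := by
  have := hS.fin
  obtain ⟨Q, rfl⟩ := exists_rat T h
  rw [← map_nsmul] at hT
  have hQ : l • Q = 0 := act_inj _ (by rw [hT, map_zero])
  by_contra hne
  have hQ0 : Q ≠ 0 := by
    rintro rfl
    exact hne (map_zero _)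
  have : Fact l.Prime := ⟨hl⟩
  apply hS.card
  rw [← addOrderOf_eq_prime hQ hQ0]
  exact addOrderOf_dvd_natCard Q

theorem TrivSel.cob (hS : TrivSel a b l) (hl : l.Prime) (η : Gal ℚ → SP a b Qb)
    (h0 : ∀ g, l • η g = 0) (h1 : ∀ g g', η (g * g') = η g + g • η g')
    (hU : ∃ U : Subgroup (Gal ℚ), IsOpen (U : Set (Gal ℚ)) ∧ ∀ u ∈ U, η u = 0)
    (hp : ∀ (p : ℕ) [Fact p.Prime], LocTriv (EW a b) ℚ_[p] η) (hr : LocTriv (EW a b) ℝ η) :
    ∃ T : SP a b Qb, l • T = 0 ∧ ∀ g, η g = g • T - T := by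
  have := hS.fin
  obtain ⟨U, hU1, hU2⟩ := hU
  have hlc : IsLocallyConstant η := by
    rw [IsLocallyConstant.iff_exists_open]
    intro x
    refine ⟨{y | x⁻¹ * y ∈ U}, ?_, ?_, fun y hy => ?_⟩
    · have : Continuous fun y : Gal ℚ => x⁻¹ * y := by fun_prop
      exact hU1.preimage this
    · show x⁻¹ * x ∈ U
      rw [inv_mul_cancel]
      exact U.one_mem
    · have h2 := h1 x (x⁻¹ * y)
      rw [mul_inv_cancel_left, hU2 _ hy, smul_zero, add_zero] at h2
      exact h2
  have hsc : IsShaCoc (EW a b) η := ⟨⟨hlc, h1⟩, hp, hr⟩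
  have hs := hS.sha (QuotientAddGroup.mk ⟨η, hsc⟩ : Sha (EW a b)) (by
    have h2 : l • (⟨η, hsc⟩ : Pool.Agent.TH841.SH.D.shaCoc (EW a b)) = 0 := by
      apply Subtype.ext
      funext g
      exact h0 g
    show (QuotientAddGroup.mk (l • (⟨η, hsc⟩ : Pool.Agent.TH841.SH.D.shaCoc (EW a b))) :
      Sha (EW a b)) = 0
    rw [h2]
    rfl)
  have hc := (QuotientAddGroup.eq_zero_iff _).1 hs
  obtain ⟨P, hP⟩ : IsCob (EW a b) η := hc
  have hP' : ∀ g : Gal ℚ, η g = g • P - P := hP
  obtain ⟨Q, hQ⟩ := exists_rat (l • P) (by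
    intro g
    have h2 := h0 g
    rw [hP' g, smul_sub, sub_eq_zero] at h2
    rw [← smul_comm]
    exact h2)
  have hcop : (Nat.card (SP a b ℚ)).Coprime l :=
    ((Nat.Prime.coprime_iff_not_dvd hl).2 hS.card).symm
  obtain ⟨Q', hQ'⟩ := (nsmulCoprime hcop).surjective Q
  have hQ2 : l • Q' = Q := hQ'
  refine ⟨P - act (EW a b) (Algebra.ofId ℚ Qb) Q', ?_, fun g => ?_⟩
  · rw [smul_sub, ← map_nsmul, hQ2, hQ, sub_self]
  · rw [hP' g, smul_sub]
    have h2 : g • act (EW a b) (Algebra.ofId ℚ Qb) Q' = act (EW a b) (Algebra.ofId ℚ Qb) Q' := by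
      rw [smul_def, act_act]
      congr 1
      congr 1
      apply AlgHom.ext
      intro q
      exact g.commutes q
    rw [h2]
    abel

end base

/-- automorphisms of the algebraic closure of `ℝ` -/
theorem gal_real (t : Gal ℝ) : t * t = 1 := by
  have : IsAlgClosure ℝ ℂ := ⟨inferInstance, inferInstance⟩
  let φ : AlgebraicClosure ℝ ≃ₐ[ℝ] ℂ := IsAlgClosure.equiv ℝ (AlgebraicClosure ℝ) ℂ
  let s : ℂ →ₐ[ℝ] ℂ := (φ.toAlgHom.comp t.toAlgHom).comp φ.symm.toAlgHom
  have hs : ∀ z, s (s z) = z := by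
    intro z
    rcases Complex.real_algHom_eq_id_or_conj s with h | h
    · rw [h]
      rfl
    · rw [h]
      exact Complex.conj_conj z
  apply AlgEquiv.ext
  intro x
  show t (t x) = x
  have h1 := hs (φ x)
  have h2 : s (φ x) = φ (t x) := by
    show φ (t (φ.symm (φ x))) = φ (t x)
    rw [AlgEquiv.symm_apply_apply]
  have h3 : s (φ (t x)) = φ (t (t x)) := by
    show φ (t (φ.symm (φ (t x)))) = φ (t (t x))
    rw [AlgEquiv.symm_apply_apply]
  rw [h2, h3] at h1
  exact φ.injective h1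

section quot

variable (K : IntermediateField ℚ Qb) [IsGalois ℚ K]

/-- the quotient of the Galois groups -/
theorem exists_quot : ∃ e : (Gal ℚ ⧸ K.fixingSubgroup) →* (K ≃ₐ[ℚ] K), Function.Injective e := by
  let f : Gal ℚ →* (K ≃ₐ[ℚ] K) := AlgEquiv.restrictNormalHom K
  have hk : f.ker = K.fixingSubgroup := IntermediateField.restrictNormalHom_ker K
  refine ⟨QuotientGroup.lift K.fixingSubgroup f (by rw [hk]), ?_⟩
  rw [injective_iff_map_eq_one]
  intro x hx
  induction x using QuotientGroup.induction_on with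
  | H t =>
    rw [QuotientGroup.lift_mk] at hx
    rw [QuotientGroup.eq_one_iff, ← hk]
    exact hx

end quot

/-- **Triviality of the Selmer group over `K`.** -/
theorem selmer_zero {a b : ℤ} {l : ℕ} (hl : l.Prime) (hl2 : l ≠ 2)
    (hd : 4 * a ^ 3 + 27 * b ^ 2 ≠ 0) (hS : TrivSel a b l) (K : IntermediateField ℚ Qb)
    [FiniteDimensional ℚ K] [IsGalois ℚ K] (hK : IsPGroup l (K ≃ₐ[ℚ] K))
    (hsp : ∀ (p : ℕ) [Fact p.Prime], (p : ℤ) ∣ 2 * l * (4 * a ^ 3 + 27 * b ^ 2) →
      ∀ (ι : Qb →ₐ[ℚ] Cp p) (t : Gp p), ∀ x ∈ K, t (ι x) = ι x)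
    (hgd : ∀ (p : ℕ) [Fact p.Prime], ¬ (p : ℤ) ∣ 2 * l * (4 * a ^ 3 + 27 * b ^ 2) →
      ¬ l ∣ Nat.card {v : ZMod p × ZMod p // v.2 ^ 2 = v.1 ^ 3 + (a : ZMod p) * v.1 + b} + 1 ∨
      ∀ (ι : Qb →ₐ[ℚ] Cp p), ∃ S : Set (Cp p), S.Finite ∧ (∀ x ∈ S, ‖x‖ ≤ 1) ∧
        ∀ u : Gp p, (∀ x ∈ S, ‖u x - x‖ < 1) → ∀ x ∈ K, u (ι x) = ι x) :
    ∀ c ∈ Zs a b l K.fixingSubgroup, Cob l K.fixingSubgroup c := by
  obtain ⟨e, he⟩ := exists_quot K
  have hfin : Finite (Gal ℚ ⧸ K.fixingSubgroup) := Finite.of_injective e he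
  have hP : IsPGroup l (Gal ℚ ⧸ K.fixingSubgroup) := hK.of_injective e he
  refine descent hl K.fixingSubgroup hP (fun T hT h => hS.no_tor hl T hT h)
    (Zs a b l K.fixingSubgroup) (fun c hc => hc.1) (fun c hc => hc.2.1) ?_ (fun g c hc => Zs.cj g hc)
    ?_
  · rintro c c' h ⟨h1, h2, ⟨U, hU, h3⟩, h4, h5⟩
    refine ⟨fun x hx => by rw [← h x hx]; exact h1 x hx, fun x hx y hy => ?_, ⟨U, hU, fun u hu hu' =>
      by rw [← h u hu']; exact h3 u hu hu'⟩, fun p _ => (h4 p).ext h, h5.ext h⟩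
    rw [← h _ (mul_mem hx hy), ← h x hx, ← h y hy]
    exact h2 x hx y hy
  · intro η hη h0 h1
    obtain ⟨-, -, ⟨U, hU, h3⟩, h4, h5⟩ := hη
    refine hS.cob hl η h0 h1 ⟨U ⊓ K.fixingSubgroup, hU.inter K.fixingSubgroup_isOpen,
      fun u hu => h3 u hu.1 hu.2⟩ ?_ ?_
    · intro p _ ι
      obtain ⟨r, hr⟩ := exists_res (k := ℚ_[p]) ι
      obtain ⟨R, hR⟩ := h4 p ι
      have hmem : ∀ t : Gp p, (∀ x ∈ K, t (ι x) = ι x) → r t ∈ K.fixingSubgroup := by
        intro t ht
        rw [IntermediateField.mem_fixingSubgroup_iff]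
        intro x hx
        apply ι.toRingHom.injective
        show ι (r t x) = ι x
        rw [← hr, ht x hx]
      have huniq : ∀ (τ : Gp p) (σ : Gal ℚ), (∀ x, τ (ι x) = ι (σ x)) → σ = r τ := by
        intro τ σ h
        apply AlgEquiv.ext
        intro x
        apply ι.toRingHom.injective
        show ι (σ x) = ι (r τ x)
        rw [← h, ← hr]
      by_cases hb : (p : ℤ) ∣ 2 * l * (4 * a ^ 3 + 27 * b ^ 2)
      · refine ⟨R, fun τ σ h => hR τ σ ?_ h⟩
        rw [huniq τ σ h]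
        exact hmem τ (hsp p hb ι τ)
      · have hgood : ¬ (p : ℤ) ∣ 2 * (4 * a ^ 3 + 27 * b ^ 2) := by
          intro h
          apply hb
          have : (2 * l * (4 * a ^ 3 + 27 * b ^ 2) : ℤ) = l * (2 * (4 * a ^ 3 + 27 * b ^ 2)) := by ring
          rw [this]
          exact Dvd.dvd.mul_left h _
        have hpl : p ≠ l := by
          rintro rfl
          apply hb
          exact ⟨2 * (4 * a ^ 3 + 27 * b ^ 2), by ring⟩
        let Dw : Subgroup (Gp p) := K.fixingSubgroup.comap r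
        have hmap : Function.Injective (QuotientGroup.map Dw K.fixingSubgroup r le_rfl) := by
          rw [injective_iff_map_eq_one]
          intro x hx
          induction x using QuotientGroup.induction_on with
          | H t =>
            rw [QuotientGroup.map_mk, QuotientGroup.eq_one_iff] at hx
            rw [QuotientGroup.eq_one_iff]
            exact hx
        have hfinD : Finite (Gp p ⧸ Dw) := Finite.of_injective _ hmap
        have hPD : IsPGroup l (Gp p ⧸ Dw) := hP.of_injective _ hmap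
        have hcomm : ∀ (t : Gp p) (P : SP a b Qb),
            act (EW a b) ι (r t • P) = t • (act (EW a b) ι P : SP a b (Cp p)) := by
          intro t P
          rw [smul_def, smul_def, act_act, act_act]
          congr 1
          congr 1
          apply AlgHom.ext
          intro x
          exact (hr t x).symm
        obtain ⟨T, hT⟩ := local_good (a := a) (b := b) (p := p) hl hgood hpl Dw hPD (by
            rcases hgd p hb with h | h
            · exact Or.inl h
            · obtain ⟨S, hS1, hS2, hS3⟩ := h ι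
              exact Or.inr ⟨S, hS1, hS2, fun u hu => hmem u (hS3 u hu)⟩)
          (fun t => act (EW a b) ι (η (r t)))
          (fun s t => by
            show act (EW a b) ι (η (r (s * t))) = _
            rw [map_mul, h1, map_add, hcomm])
          (fun t => by
            show l • act (EW a b) ι (η (r t)) = 0
            rw [← map_nsmul, h0, map_zero])
          R (fun t ht => hR t (r t) ht (hr t))
        refine ⟨T, fun τ σ h => ?_⟩
        rw [huniq τ σ h]
        exact hT τ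
    · intro ι
      obtain ⟨r, hr⟩ := exists_res (k := ℝ) ι
      obtain ⟨R, hR⟩ := h5 ι
      refine ⟨R, fun τ σ h => hR τ σ ?_ h⟩
      have huniq : σ = r τ := by
        apply AlgEquiv.ext
        intro x
        apply ι.toRingHom.injective
        show ι (σ x) = ι (r τ x)
        rw [← h, ← hr]
      rw [huniq, ← QuotientGroup.eq_one_iff]
      set q : Gal ℚ ⧸ K.fixingSubgroup := QuotientGroup.mk (r τ) with hq
      have h2 : q ^ 2 = 1 := by
        rw [hq, ← QuotientGroup.mk_pow, pow_two, ← map_mul, gal_real, map_one]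
        rfl
      obtain ⟨k, hk⟩ := hP q
      have h6 := orderOf_dvd_of_pow_eq_one h2
      have h7 := orderOf_dvd_of_pow_eq_one hk
      have hco : Nat.Coprime 2 (l ^ k) :=
        Nat.Coprime.pow_right k ((Nat.coprime_primes Nat.prime_two hl).2 (Ne.symm hl2))
      have h8 : orderOf q = 1 := Nat.dvd_one.1 (hco ▸ Nat.dvd_gcd h6 h7)
      exact orderOf_eq_one_iff.1 h8

end Pool.Agent.R901.LD
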