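import Pool.Agent.R901.LD.Cyc

/-!
# Elliptic curves with trivial `l`-Selmer group over the fields of groups of characters, `l` odd
-/

set_option autoImplicit false

open NumberField

namespace Pool.Agent.R901.LD

open WeierstrassCurve
open Pool.Agent.W94.F3 (Cp Gp norm_gal)
open Pool.Agent.TH841.SH.D (act Gal Pt)
open IsCyclotomicExtension.Rat (galEquivZMod)
open Pool.Agent.Y18.LP (Fam sp cvl UU XX XX_nat XX_pow XX_mul eta_act sp_sub mem_sp dvd_dd AdmL)
open Pool.Agent.Y18.BSD (dd dd_ne_zero dd_dvd)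
open Pool.Agent.R901.EC (fixes split_group)
open Pool.Agent.W263.BSD (pointCount GoodPrime)

attribute [local instance] Classical.decEq
attribute [local instance 10000] AlgebraicClosure.instAlgebra
attribute [local instance 10001] IntermediateField.algebra'

lemma good_neg {a b : ℤ} {p : ℕ} : (p : ℤ) ∣ 2 * (-4 * a ^ 3 - 27 * b ^ 2) ↔
    (p : ℤ) ∣ 2 * (4 * a ^ 3 + 27 * b ^ 2) := by
  have : (2 * (-4 * a ^ 3 - 27 * b ^ 2) : ℤ) = -(2 * (4 * a ^ 3 + 27 * b ^ 2)) := by ring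
  rw [this, dvd_neg]

/-- admissible primes do not divide `2 l Δ` -/
lemma not_dvd_of_adm {a b : ℤ} {l k q : ℕ} (hl : l.Prime) {c : Fam} (hc : c ^ (l ^ k) = 1)
    (h : c q ≠ 1) (hq : q.Prime) (hA : AdmL a b l q) :
    ¬ (q : ℤ) ∣ 2 * l * (4 * a ^ 3 + 27 * b ^ 2) := by
  intro hdvd
  have h1 := Pool.Agent.Y18.LP.dvd_sub_one hl hq hc h
  have e : (2 * l * (4 * a ^ 3 + 27 * b ^ 2) : ℤ) = l * (2 * (4 * a ^ 3 + 27 * b ^ 2)) := by ring
  rw [e] at hdvd
  rcases (Nat.prime_iff_prime_int.1 hq).dvd_or_dvd hdvd with h2 | h2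
  · rw [Int.natCast_dvd_natCast] at h2
    have h3 := (Nat.prime_dvd_prime_iff_eq hq hl).1 h2
    subst h3
    have h4 := Nat.le_of_dvd (Nat.sub_pos_of_lt hq.one_lt) h1
    have := hq.pos
    omega
  · exact hA.1.2 (good_neg.2 h2)

/-- **Finiteness of the points over the fields of a group of characters.** -/
theorem core_algL {a b : ℤ} {l : ℕ} (hl : l.Prime) (hl2 : l ≠ 2)
    (hd : 4 * a ^ 3 + 27 * b ^ 2 ≠ 0) (hS : TrivSel a b l)
    (H0 : Subgroup Fam) (k : ℕ) (hpow : ∀ c ∈ H0, c ^ (l ^ k) = 1)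
    (hfin : ∀ c ∈ H0, {q | c q ≠ 1}.Finite)
    (hadm : ∀ c ∈ H0, ∀ q, c q ≠ 1 → q.Prime ∧ AdmL a b l q)
    (hspl : ∀ c ∈ H0, ∀ p : ℕ, p.Prime → (p : ℤ) ∣ 2 * l * (4 * a ^ 3 + 27 * b ^ 2) → cvl c p = 1)
    (F : IntermediateField ℚ ℂ) [NumberField F]
    (hF : F ≤ IntermediateField.adjoin ℚ {x : ℂ | ∃ c ∈ H0,
      x = Pool.Agent.Y18.LP.eta c (Complex.exp (2 * Real.pi * Complex.I / (dd (sp c) : ℕ)))})
    (F0 : Type) [Field F0] [NumberField F0] (e0 : F0 ≃+* F) :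
    Finite (SP a b F0) ∧ ¬ l ∣ Nat.card (SP a b F0) := by
  obtain ⟨Z0, hZ1, hZ2⟩ := Pool.Agent.Y18.NF.finite_gen F _ hF
  have h1 : ∀ z : ℂ, ∃ c : Fam, c ∈ H0 ∧ (z ∈ Z0 →
      z = Pool.Agent.Y18.LP.eta c (Complex.exp (2 * Real.pi * Complex.I / (dd (sp c) : ℕ)))) := by
    intro z
    by_cases hz : z ∈ Z0
    · obtain ⟨c, hc, h⟩ := hZ1 hz
      exact ⟨c, hc, fun _ => h⟩
    · exact ⟨1, H0.one_mem, fun h => absurd h hz⟩
  choose c hcH hc using h1
  set S0 : Finset ℕ := Z0.biUnion fun z => sp (c z) with hS0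
  have hS0X : ∀ q ∈ S0, q.Prime ∧ AdmL a b l q ∧ ¬ (q : ℤ) ∣ 2 * l * (4 * a ^ 3 + 27 * b ^ 2) := by
    intro q hq
    rw [hS0, Finset.mem_biUnion] at hq
    obtain ⟨z, hz, hqz⟩ := hq
    have h2 := (mem_sp (hfin _ (hcH z)) q).1 hqz
    obtain ⟨h3, h4⟩ := hadm _ (hcH z) q h2
    exact ⟨h3, h4, not_dvd_of_adm hl (hpow _ (hcH z)) h2 h3 h4⟩
  set n : ℕ := dd S0 with hn
  have hn0 : NeZero n := ⟨dd_ne_zero fun q hq => (hS0X q hq).1⟩
  let L := CyclotomicField n ℚ
  have hcyc : IsCyclotomicExtension {n} ℚ L := CyclotomicField.isCyclotomicExtension n ℚ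
  let φ : L →ₐ[ℚ] ℂ := IsAlgClosed.lift
  have hζ := IsCyclotomicExtension.zeta_spec n ℚ L
  have hζφ : IsPrimitiveRoot (φ (IsCyclotomicExtension.zeta n ℚ L)) n :=
    hζ.map_of_injective φ.toRingHom.injective
  have hroot : ∀ y : ℂ, y ^ n = 1 → ∃ z : L, φ z = y ∧ z ^ n = 1 := by
    intro y hy
    obtain ⟨i, -, hi⟩ := hζφ.eq_pow_of_pow_eq_one hy
    refine ⟨IsCyclotomicExtension.zeta n ℚ L ^ i, ?_, ?_⟩
    · rw [map_pow, hi]
    · rw [← pow_mul, mul_comm, pow_mul, hζ.pow_eq_one, one_pow]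
  set ZL : Set L := {x : L | ∃ c ∈ H0, (∀ q, q ∉ S0 → c q = 1) ∧
      ∃ z : L, z ^ dd (sp c) = 1 ∧ x = Pool.Agent.Y18.LP.eta c z} with hZL
  have hadj : F ≤ (IntermediateField.adjoin ℚ ZL).map φ := by
    refine hZ2.trans ?_
    rw [IntermediateField.adjoin_map]
    refine IntermediateField.adjoin.mono ℚ _ _ ?_
    intro z hz
    have hz' : z ∈ Z0 := hz
    have hsub : sp (c z) ⊆ S0 := Finset.subset_biUnion_of_mem (fun z => sp (c z)) hz'
    have hM0 : dd (sp (c z)) ≠ 0 := dd_ne_zero fun q hq => (hS0X q (hsub hq)).1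
    set M := dd (sp (c z)) with hM
    set y : ℂ := Complex.exp (2 * Real.pi * Complex.I / (M : ℕ)) with hy
    have hyM : y ^ M = 1 := (Complex.isPrimitiveRoot_exp M hM0).pow_eq_one
    obtain ⟨k, hk⟩ : M ∣ n := dd_dvd hsub
    have hyn : y ^ n = 1 := by rw [hk, pow_mul, hyM, one_pow]
    obtain ⟨x, hx1, hx2⟩ := hroot y hyn
    refine ⟨Pool.Agent.Y18.LP.eta (c z) x, ⟨c z, hcH z, fun q hq => ?_, x, ?_, rfl⟩, ?_⟩
    · by_contra h
      exact hq (hsub ((mem_sp (hfin _ (hcH z)) q).2 h))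
    · apply φ.toRingHom.injective
      show φ _ = φ _
      rw [map_pow, map_one, hx1]
      exact hyM
    · show φ (Pool.Agent.Y18.LP.eta (c z) x) = z
      refine Eq.trans ?_ (hc z hz').symm
      unfold Pool.Agent.Y18.LP.eta
      rw [map_sum]
      refine Finset.sum_congr rfl fun u _ => ?_
      rw [map_pow, hx1]
  set F' : IntermediateField ℚ L := F.comap φ with hF'
  have hF'le : F' ≤ IntermediateField.adjoin ℚ ZL := by
    intro x hx
    have h2 : φ x ∈ F := hx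
    obtain ⟨y, hy, hyx⟩ := hadj h2
    have h3 : y = x := φ.toRingHom.injective hyx
    rw [← h3]
    exact hy
  have hSp : ∀ q ∈ S0, q.Prime := fun q hq => (hS0X q hq).1
  obtain ⟨j, hj⟩ := pgroup_of n L F' hl k (fun σ => fixes n L H0 S0 hSp dvd_rfl F' hF'le _
    (fun c hc _ => by
      have h2 : galEquivZMod n L (σ ^ (l ^ k)) = (galEquivZMod n L σ) ^ (l ^ k) := map_pow _ _ _
      rw [h2, map_pow, XX_pow (hpow c hc)]
      rfl))
  have hm : ∀ q : ℕ, q.Prime → q ∣ n → AdmL a b l q ∧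
      ¬ (q : ℤ) ∣ 2 * l * (4 * a ^ 3 + 27 * b ^ 2) := by
    intro l' hl' hlm
    have h1 : ∃ q ∈ S0, l' ∣ q := (Prime.dvd_finset_prod_iff (Nat.prime_iff.1 hl') _).1 hlm
    obtain ⟨q, hq, h2⟩ := h1
    have h3 : l' = q := (Nat.prime_dvd_prime_iff_eq hl' (hSp q hq)).1 h2
    subst h3
    exact (hS0X l' hq).2
  -- the field in the algebraic closure
  let φ2 : L →ₐ[ℚ] Qb := IsAlgClosed.lift
  let K : IntermediateField ℚ Qb := F'.map φ2
  let eK : F' ≃ₐ[ℚ] K := F'.equivMap φ2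
  have hgF : IsGalois ℚ F' := Pool.Agent.Y702.L.gal_F n L F'
  have hgK : IsGalois ℚ K := IsGalois.of_algEquiv eK
  have hfK : FiniteDimensional ℚ K := LinearEquiv.finiteDimensional eK.toLinearEquiv
  have hPK : IsPGroup l (K ≃ₐ[ℚ] K) := by
    have : Fact l.Prime := ⟨hl⟩
    refine IsPGroup.of_card (n := j) ?_
    rw [IsGalois.card_aut_eq_finrank, ← hj]
    exact (LinearEquiv.finrank_eq eK.toLinearEquiv).symm
  have hsel := selmer_zero hl hl2 hd hS K hPK ?_ ?_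
  · -- the points
    let ψ : F' →+* F :=
      { toFun := fun x => ⟨φ x.1, x.2⟩
        map_one' := Subtype.ext (map_one φ)
        map_mul' := fun x y => Subtype.ext (map_mul φ x.1 y.1)
        map_zero' := Subtype.ext (map_zero φ)
        map_add' := fun x y => Subtype.ext (map_add φ x.1 y.1) }
    have hψ : Function.Bijective ψ := by
      refine ⟨ψ.injective, fun y => ?_⟩
      obtain ⟨x, -, hx⟩ := hadj y.2
      exact ⟨⟨x, by
        show φ x ∈ F
        have : φ x = y := hx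
        rw [this]
        exact y.2⟩, Subtype.ext hx⟩
    let e : F' ≃+* F := RingEquiv.ofBijective ψ hψ
    let g : F0 →+* Qb := ((φ2 : L →+* Qb).comp (F'.val : F' →+* L)).comp
      ((e.symm : F →+* F').comp (e0 : F0 →+* F))
    refine points_finite hl hd K hsel F0 g.toRatAlgHom fun z => ?_
    constructor
    · rintro ⟨x, hx, rfl⟩
      refine ⟨e0.symm (e ⟨x, hx⟩), ?_⟩
      show φ2 (e.symm (e0 (e0.symm (e ⟨x, hx⟩)))).1 = φ2 x
      rw [RingEquiv.apply_symm_apply, RingEquiv.symm_apply_apply]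
    · rintro ⟨z', rfl⟩
      exact ⟨(e.symm (e0 z')).1, (e.symm (e0 z')).2, rfl⟩
  · -- split primes
    intro p hp hpd ι t x hx
    obtain ⟨z, hz, rfl⟩ := hx
    have hpn : p.Coprime n := by
      rw [Nat.Prime.coprime_iff_not_dvd hp.1]
      intro h
      exact (hm p hp.1 h).2 hpd
    obtain ⟨σ, j', h2, h3⟩ := local_frob n L hpn (ι.comp φ2) t
    have h4 : σ z = z := by
      refine fixes n L H0 S0 hSp dvd_rfl F' hF'le σ (fun c hc hcS => ?_) z hz
      rw [h3, map_pow, Units.val_pow_eq_pow_val,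
        XX_nat c (fun q hq => (dvd_dd hq).trans (dd_dvd (sp_sub S0 hcS).2)) hpn]
      have h5 := hspl c hc p hp.1 hpd
      unfold cvl at h5
      rw [h5, one_pow]
    have h6 := h2 z
    rw [h4] at h6
    exact h6
  · -- good primes
    intro p hp hpd
    by_cases hpn : p ∣ n
    · exact Or.inl (hm p hp.1 hpn).1.2
    · right
      intro ι
      set ζ := IsCyclotomicExtension.zeta n ℚ L with hζdef
      have hζ1 : ζ ^ n = 1 := hζ.pow_eq_one
      have hw : (ι (φ2 ζ)) ^ n = 1 := by rw [← map_pow, ← map_pow, hζ1, map_one, map_one]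
      refine ⟨{ι (φ2 ζ)}, Set.finite_singleton _, fun x hx => ?_, fun u hu x hx => ?_⟩
      · rw [hx]
        exact (norm_root hn0.out hw).le
      · have h2 : u (ι (φ2 ζ)) = ι (φ2 ζ) :=
          root_eq hpn (by rw [← map_pow, hw, map_one]) hw (hu _ rfl)
        obtain ⟨z, hz, rfl⟩ := hx
        have hgL : IsGalois ℚ L := IsCyclotomicExtension.isGalois {n} ℚ L
        obtain ⟨σ, hσ⟩ := exists_res1 (k := ℚ_[p]) (L := L) (ι.comp φ2) u
        have h3 : σ ζ = ζ := by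
          apply (ι.comp φ2).toRingHom.injective
          show (ι.comp φ2) (σ ζ) = (ι.comp φ2) ζ
          rw [← hσ]
          exact h2
        have h4 : (σ : L →ₐ[ℚ] L) = AlgHom.id ℚ L :=
          (hζ.powerBasis ℚ).algHom_ext (by
            rw [IsPrimitiveRoot.powerBasis_gen]
            exact h3)
        have h5 : σ z = z := DFunLike.congr_fun h4 z
        have h6 := hσ z
        rw [h5] at h6
        exact h6

end Pool.Agent.R901.LD
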